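import Pool.Agent.Helper60.SL.ConnKey

/-!
# The coefficients are bounded by a constant which does not depend on the graph
-/

set_option autoImplicit false

namespace Pool.Agent.Helper60.SL

open Finset Pool.Agent.Helper96.FC

theorem keyf_lt {m v1 v2 v3 p1 p2 p3 : ℕ} (h0 : m < 10) (h1 : v1 < 6) (h2 : v2 < 6) (h3 : v3 < 6)
    (h4 : p1 < 2) (h5 : p2 < 2) (h6 : p3 < 2) : keyf m v1 v2 v3 p1 p2 p3 < 17280 := by
  unfold keyf
  omega

theorem keyg_lt {m v1 v2 p : ℕ} (h0 : m < 6) (h1 : v1 < 6) (h2 : v2 < 6) (h3 : p < 2) :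
    keyg m v1 v2 p < 432 := by
  unfold keyg
  omega

theorem rcf_lt {a b c d e f : ℕ} (h1 : a < 2) (h2 : b < 2) (h3 : c < 2) (h4 : d < 2) (h5 : e < 2)
    (h6 : f < 2) : rcf a b c d e f < 64 := by
  unfold rcf
  omega

section

variable {V : Type} [Fintype V]

theorem a_lt (S : Sys V) (u v : V) : S.a u v < 2 := Nat.lt_succ_of_le (S.a_le u v)

theorem key_lt (S : Sys V) (m : Fin 10) (y : Fin 5 → V) : S.key m y < 17280 :=
  keyf_lt m.2 (S.vw_lt _ _ _) (S.vw_lt _ _ _) (S.vw_lt _ _ _) (a_lt S _ _) (a_lt S _ _)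
    (a_lt S _ _)

theorem key4_lt (S : Sys V) (m : Fin 6) (y : Fin 4 → V) : S.key4 m y < 432 :=
  keyg_lt m.2 (S.vw_lt _ _ _) (S.vw_lt _ _ _) (a_lt S _ _)

theorem rc_lt (S : Sys V) (x : Fin 6 → V) : S.rc x < 64 :=
  rcf_lt (a_lt S _ _) (a_lt S _ _) (a_lt S _ _) (a_lt S _ _) (a_lt S _ _) (a_lt S _ _)

end

/-- A bound for a table. -/
def tb3 (n N : ℕ) (X : ℕ → ℕ → ℕ → ℤ) (idx : ℕ → ℕ) : ℕ :=
  ∑ r ∈ range n, ∑ k ∈ range N, ∑ k' ∈ range N, (X r (idx k) (idx k')).natAbs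

theorem le_tb3 {n N : ℕ} (X : ℕ → ℕ → ℕ → ℤ) (idx : ℕ → ℕ) {r k k' : ℕ} (hr : r < n) (hk : k < N)
    (hk' : k' < N) : X r (idx k) (idx k') ≤ tb3 n N X idx := by
  have h1 : (X r (idx k) (idx k')).natAbs ≤ tb3 n N X idx := by
    unfold tb3
    refine le_trans ?_ (single_le_sum (f := fun r => ∑ k ∈ range N, ∑ k' ∈ range N,
      (X r (idx k) (idx k')).natAbs) (fun _ _ => Nat.zero_le _) (mem_range.2 hr))
    refine le_trans ?_ (single_le_sum (f := fun k => ∑ k' ∈ range N,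
      (X r (idx k) (idx k')).natAbs) (fun _ _ => Nat.zero_le _) (mem_range.2 hk))
    exact single_le_sum (f := fun k' => (X r (idx k) (idx k')).natAbs)
      (fun _ _ => Nat.zero_le _) (mem_range.2 hk')
  have h2 : X r (idx k) (idx k') ≤ ((X r (idx k) (idx k')).natAbs : ℤ) := Int.le_natAbs
  exact h2.trans (by exact_mod_cast h1)

theorem listsum_le {α : Type} (l : List α) (f : α → ℤ) (B : ℤ) (h : ∀ p ∈ l, f p ≤ B) :
    (l.map f).sum ≤ l.length * B := by
  induction l with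
  | nil => simp
  | cons a l ih =>
    rw [List.map_cons, List.sum_cons, List.length_cons]
    have h1 := h a (List.mem_cons_self)
    have h2 := ih (fun p hp => h p (List.mem_cons_of_mem _ hp))
    push_cast
    linarith

/-- The contribution of the squares is bounded. -/
theorem KS_le (τ : Tab) (lA : List (List PA)) (lC : List PC) {V : Type} [Fintype V] (S : Sys V)
    (x : Fin 6 → V) : S.KS τ lA lC x ≤
      lA.flatten.length * (tb3 64 17280 τ.XA τ.idA : ℕ) +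
        lC.length * (tb3 2 432 τ.XC τ.idC : ℕ) := by
  unfold Sys.KS
  refine add_le_add (listsum_le _ _ _ fun p _ => ?_) (listsum_le _ _ _ fun p _ => ?_)
  · exact le_tb3 τ.XA τ.idA (rc_lt S _) (key_lt S _ _) (key_lt S _ _)
  · exact le_tb3 τ.XC τ.idC (a_lt S _ _) (key4_lt S _ _) (key4_lt S _ _)

/-- The regularity terms are bounded if the multipliers are. -/
theorem RR_le {V : Type} [Fintype V] (S : Sys V) (ω : (Fin 5 → V) → Fin 5 → ℤ)
    (l : List (Fin 6 → Fin 6)) (B : ℕ) (hω : ∀ y z, ω y z ≤ B) (x : Fin 6 → V) :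
    S.RR ω l x ≤ l.length * (5 * B : ℕ) := by
  unfold Sys.RR
  refine listsum_le _ _ _ fun g _ => ?_
  unfold Sys.rg
  have h1 : ∀ z : Fin 5, ω ((x ∘ g) ∘ t5) z * (S.a ((x ∘ g) (t5 z)) ((x ∘ g) 5) : ℤ) ≤ B := by
    intro z
    have h2 := hω ((x ∘ g) ∘ t5) z
    have h3 := S.a_le ((x ∘ g) (t5 z)) ((x ∘ g) 5)
    rcases Nat.le_one_iff_eq_zero_or_eq_one.1 h3 with h | h
    · rw [h]
      simp
    · rw [h]
      simpa using h2
  refine (sum_le_sum fun z _ => h1 z).trans (le_of_eq ?_)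
  rw [sum_const, card_univ, Fintype.card_fin, nsmul_eq_mul]
  push_cast
  ring

theorem dd_le {V : Type} [Fintype V] (S : Sys V) (x : Fin 6 → V) :
    S.dg4 x 4 * S.dg4 x 5 ≤ 16 := by
  have h : ∀ k, S.dg4 x k ≤ 4 := by
    intro k
    unfold Sys.dg4
    have h0 := S.a_le (x 0) (x k)
    have h1 := S.a_le (x 1) (x k)
    have h2 := S.a_le (x 2) (x k)
    have h3 := S.a_le (x 3) (x k)
    omega
  calc S.dg4 x 4 * S.dg4 x 5 ≤ 4 * 4 := Nat.mul_le_mul (h 4) (h 5)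
    _ = 16 := by norm_num

end Pool.Agent.Helper60.SL
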