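import Pool.Agent.Helper60.SL.Robust

/-!
# Connected flags give connected tuples
-/

set_option autoImplicit false

namespace Pool.Agent.Helper60.SL

open Finset Pool.Agent.Helper96.FC

variable {V : Type} [Fintype V]

/-- Connected tuples of any length. -/
def ConnF (S : Sys V) {n : ℕ} (y : Fin n → V) : Prop :=
  ∀ P : Finset (Fin n), P.Nonempty → P ≠ univ → ∃ i ∈ P, ∃ j, j ∉ P ∧ S.adj (y i) (y j) = true

/-- Connectedness of the graph on the mark and three further vertices. -/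
def ck5 (b1 b2 b3 p1 p2 p3 : Bool) : Bool :=
  (b1 || (p1 && b2) || (p2 && b3) || (p1 && p3 && b3) || (p2 && p3 && b2)) &&
  (b2 || (p1 && b1) || (p3 && b3) || (p1 && p2 && b3) || (p3 && p2 && b1)) &&
  (b3 || (p2 && b1) || (p3 && b2) || (p2 && p1 && b2) || (p3 && p1 && b1))

/-- The key describes a connected flag on five vertices. -/
def ck (k : ℕ) : Bool :=
  ck5 (!(k / 288 % 6).beq 0) (!(k / 48 % 6).beq 0) (!(k / 8 % 6).beq 0) (!(k / 4 % 2).beq 0)
    (!(k / 2 % 2).beq 0) (!(k % 2).beq 0)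

/-- The key describes a connected flag on four vertices. -/
def ckg (k : ℕ) : Bool :=
  (!(k / 12 % 6).beq 0 || (!(k % 2).beq 0 && !(k / 2 % 6).beq 0)) &&
  (!(k / 2 % 6).beq 0 || (!(k % 2).beq 0 && !(k / 12 % 6).beq 0))

theorem ck_keyf {m v1 v2 v3 p1 p2 p3 : ℕ} (h1 : v1 < 6) (h2 : v2 < 6) (h3 : v3 < 6)
    (h4 : p1 < 2) (h5 : p2 < 2) (h6 : p3 < 2) :
    ck (keyf m v1 v2 v3 p1 p2 p3) =
      ck5 (!v1.beq 0) (!v2.beq 0) (!v3.beq 0) (!p1.beq 0) (!p2.beq 0) (!p3.beq 0) := by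
  have e1 : keyf m v1 v2 v3 p1 p2 p3 / 288 % 6 = v1 := by unfold keyf; omega
  have e2 : keyf m v1 v2 v3 p1 p2 p3 / 48 % 6 = v2 := by unfold keyf; omega
  have e3 : keyf m v1 v2 v3 p1 p2 p3 / 8 % 6 = v3 := by unfold keyf; omega
  have e4 : keyf m v1 v2 v3 p1 p2 p3 / 4 % 2 = p1 := by unfold keyf; omega
  have e5 : keyf m v1 v2 v3 p1 p2 p3 / 2 % 2 = p2 := by unfold keyf; omega
  have e6 : keyf m v1 v2 v3 p1 p2 p3 % 2 = p3 := by unfold keyf; omega
  unfold ck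
  rw [e1, e2, e3, e4, e5, e6]

theorem ckg_keyg {m v1 v2 p : ℕ} (h1 : v1 < 6) (h2 : v2 < 6) (h3 : p < 2) :
    ckg (keyg m v1 v2 p) = ((!v1.beq 0 || (!p.beq 0 && !v2.beq 0)) &&
      (!v2.beq 0 || (!p.beq 0 && !v1.beq 0))) := by
  have e1 : keyg m v1 v2 p / 12 % 6 = v1 := by unfold keyg; omega
  have e2 : keyg m v1 v2 p / 2 % 6 = v2 := by unfold keyg; omega
  have e3 : keyg m v1 v2 p % 2 = p := by unfold keyg; omega
  unfold ckg
  rw [e1, e2, e3]

theorem cross {n : ℕ} (S : Sys V) (y : Fin n → V) (P : Finset (Fin n))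
    (hno : ¬ ∃ i ∈ P, ∃ j, j ∉ P ∧ S.adj (y i) (y j) = true) (i j : Fin n)
    (hij : S.adj (y i) (y j) = true) : i ∈ P ↔ j ∈ P := by
  constructor
  · intro hi
    by_contra hj
    exact hno ⟨i, hi, j, hj, hij⟩
  · intro hj
    by_contra hi
    exact hno ⟨j, hj, i, hi, by rw [S.adj_symm]; exact hij⟩

theorem vw_cross {n : ℕ} (S : Sys V) (y : Fin n → V) (P : Finset (Fin n))
    (hno : ¬ ∃ i ∈ P, ∃ j, j ∉ P ∧ S.adj (y i) (y j) = true) (i j k : Fin n)
    (hij : i ∈ P ↔ j ∈ P) (h : (!(S.vw (y i) (y j) (y k)).beq 0) = true) : i ∈ P ↔ k ∈ P := by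
  have h1 : S.adj (y i) (y k) = true ∨ S.adj (y j) (y k) = true := by
    unfold Sys.vw at h
    rcases h2 : S.adj (y i) (y k) <;> rcases h3 : S.adj (y j) (y k) <;> simp_all
  rcases h1 with h1 | h1
  · exact cross S y P hno i k h1
  · exact hij.trans (cross S y P hno j k h1)

theorem a_cross {n : ℕ} (S : Sys V) (y : Fin n → V) (P : Finset (Fin n))
    (hno : ¬ ∃ i ∈ P, ∃ j, j ∉ P ∧ S.adj (y i) (y j) = true) (i j : Fin n)
    (h : (!(S.a (y i) (y j)).beq 0) = true) : i ∈ P ↔ j ∈ P := by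
  refine cross S y P hno i j ?_
  unfold Sys.a at h
  rcases h2 : S.adj (y i) (y j) <;> simp_all

theorem all5 : ∀ (m : Fin 10) (i : Fin 5),
    i = e1 m ∨ i = e2 m ∨ i = o1 m ∨ i = o2 m ∨ i = o3 m := by decide +kernel

theorem all4 : ∀ (m : Fin 6) (i : Fin 4), i = c1 m ∨ i = c2 m ∨ i = q1 m ∨ i = q2 m := by
  decide +kernel

theorem conn_of_key (S : Sys V) (m : Fin 10) (y : Fin 5 → V)
    (hm : S.adj (y (e1 m)) (y (e2 m)) = true) (h : ck (S.key m y) = true) : ConnF S y := by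
  intro P hP hP2
  by_contra hno
  unfold Sys.key at h
  rw [ck_keyf (S.vw_lt _ _ _) (S.vw_lt _ _ _) (S.vw_lt _ _ _) (Nat.lt_succ_of_le (S.a_le _ _))
    (Nat.lt_succ_of_le (S.a_le _ _)) (Nat.lt_succ_of_le (S.a_le _ _))] at h
  have c0 := cross S y P hno _ _ hm
  have c1 := vw_cross S y P hno _ _ (o1 m) c0
  have c2 := vw_cross S y P hno _ _ (o2 m) c0
  have c3 := vw_cross S y P hno _ _ (o3 m) c0
  have d1 := a_cross S y P hno (o1 m) (o2 m)
  have d2 := a_cross S y P hno (o1 m) (o3 m)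
  have d3 := a_cross S y P hno (o2 m) (o3 m)
  have key : (e1 m ∈ P ↔ o1 m ∈ P) ∧ (e1 m ∈ P ↔ o2 m ∈ P) ∧ (e1 m ∈ P ↔ o3 m ∈ P) := by
    unfold ck5 at h
    simp only [Bool.and_eq_true, Bool.or_eq_true] at h
    obtain ⟨⟨h1, h2⟩, h3⟩ := h
    refine ⟨?_, ?_, ?_⟩
    · rcases h1 with (((h | h) | h) | h) | h
      · exact c1 h
      · exact (c2 h.2).trans (d1 h.1).symm
      · exact (c3 h.2).trans (d2 h.1).symm
      · exact (c3 h.2).trans ((d3 h.1.2).symm.trans (d1 h.1.1).symm)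
      · exact (c2 h.2).trans ((d3 h.1.2).trans (d2 h.1.1).symm)
    · rcases h2 with (((h | h) | h) | h) | h
      · exact c2 h
      · exact (c1 h.2).trans (d1 h.1)
      · exact (c3 h.2).trans (d3 h.1).symm
      · exact (c3 h.2).trans ((d2 h.1.2).symm.trans (d1 h.1.1))
      · exact (c1 h.2).trans ((d2 h.1.2).trans (d3 h.1.1).symm)
    · rcases h3 with (((h | h) | h) | h) | h
      · exact c3 h
      · exact (c1 h.2).trans (d2 h.1)
      · exact (c2 h.2).trans (d3 h.1)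
      · exact (c2 h.2).trans ((d1 h.1.2).symm.trans (d2 h.1.1))
      · exact (c1 h.2).trans ((d1 h.1.2).trans (d3 h.1.1))
  have hall := all5 m
  have hiff : ∀ i : Fin 5, (e1 m ∈ P ↔ i ∈ P) := by
    intro i
    rcases hall i with rfl | rfl | rfl | rfl | rfl
    · exact Iff.rfl
    · exact c0
    · exact key.1
    · exact key.2.1
    · exact key.2.2
  obtain ⟨i, hi⟩ := hP
  apply hP2
  ext j
  simp only [mem_univ, iff_true]
  exact (hiff j).1 ((hiff i).2 hi)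

theorem conn_of_key4 (S : Sys V) (m : Fin 6) (y : Fin 4 → V)
    (hm : S.adj (y (c1 m)) (y (c2 m)) = true) (h : ckg (S.key4 m y) = true) : ConnF S y := by
  intro P hP hP2
  by_contra hno
  unfold Sys.key4 at h
  rw [ckg_keyg (S.vw_lt _ _ _) (S.vw_lt _ _ _) (Nat.lt_succ_of_le (S.a_le _ _))] at h
  have e0 := cross S y P hno _ _ hm
  have e1 := vw_cross S y P hno _ _ (q1 m) e0
  have e2 := vw_cross S y P hno _ _ (q2 m) e0
  have d1 := a_cross S y P hno (q1 m) (q2 m)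
  have key : (c1 m ∈ P ↔ q1 m ∈ P) ∧ (c1 m ∈ P ↔ q2 m ∈ P) := by
    simp only [Bool.and_eq_true, Bool.or_eq_true] at h
    obtain ⟨h1, h2⟩ := h
    refine ⟨?_, ?_⟩
    · rcases h1 with h | h
      · exact e1 h
      · exact (e2 h.2).trans (d1 h.1).symm
    · rcases h2 with h | h
      · exact e2 h
      · exact (e1 h.2).trans (d1 h.1)
  have hall := all4 m
  have hiff : ∀ i : Fin 4, (c1 m ∈ P ↔ i ∈ P) := by
    intro i
    rcases hall i with rfl | rfl | rfl | rfl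
    · exact Iff.rfl
    · exact e0
    · exact key.1
    · exact key.2
  obtain ⟨i, hi⟩ := hP
  apply hP2
  ext j
  simp only [mem_univ, iff_true]
  exact (hiff j).1 ((hiff i).2 hi)

/-- Two connected subtuples with a common position which cover all positions. -/
theorem conn_glue (S : Sys V) {n n' : ℕ} (x : Fin 6 → V) (f : Fin n → Fin 6) (f' : Fin n' → Fin 6)
    (h : ConnF S (x ∘ f)) (h' : ConnF S (x ∘ f')) (i0 : Fin n) (i0' : Fin n')
    (h0 : f i0 = f' i0') (hall : ∀ k : Fin 6, (∃ i, f i = k) ∨ ∃ i, f' i = k) : Conn S x := by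
  intro P hP hP2
  by_contra hno
  have key : ∀ {n : ℕ} (f : Fin n → Fin 6), ConnF S (x ∘ f) → ∀ i j : Fin n, f i ∈ P → f j ∈ P := by
    intro n f h i j hi
    by_contra hj
    obtain ⟨a, ha, b, hb, hab⟩ := h (univ.filter (fun i => f i ∈ P)) ⟨i, by simpa using hi⟩
      (fun hc => by
        have : j ∈ univ.filter (fun i => f i ∈ P) := by rw [hc]; exact mem_univ _
        exact hj (by simpa using this))
    exact hno ⟨f a, by simpa using ha, f b, by simpa using hb, hab⟩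
  have hone : ∀ k l : Fin 6, k ∈ P → l ∈ P := by
    have h1 : ∀ k : Fin 6, k ∈ P → f i0 ∈ P := by
      intro k hk
      rcases hall k with ⟨i, rfl⟩ | ⟨i, rfl⟩
      · exact key f h i i0 hk
      · rw [h0]
        exact key f' h' i i0' hk
    have h2 : f i0 ∈ P → ∀ l : Fin 6, l ∈ P := by
      intro hk l
      rcases hall l with ⟨i, rfl⟩ | ⟨i, rfl⟩
      · exact key f h i0 i hk
      · rw [h0] at hk
        exact key f' h' i0' i hk
    exact fun k l hk => h2 (h1 k hk) l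
  obtain ⟨k, hk⟩ := hP
  apply hP2
  ext l
  simp only [mem_univ, iff_true]
  exact hone k l hk

theorem conn_GA (S : Sys V) (a b : Fin 6) (p : PA) (hp : p.Good a b) (x : Fin 6 → V)
    (h01 : S.q (x 0) (x 1) = true) (hab : S.q (x a) (x b) = true)
    (h1 : ck (S.key p.m ((x ∘ p.f) ∘ s1)) = true) (h2 : ck (S.key p.m' ((x ∘ p.f) ∘ s2)) = true) :
    Conn S x := by
  obtain ⟨hinj, hm, hm'⟩ := hp
  have k1 : S.adj (((x ∘ p.f) ∘ s1) (e1 p.m)) (((x ∘ p.f) ∘ s1) (e2 p.m)) = true := by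
    show S.adj (x (p.f (s1 (e1 p.m)))) (x (p.f (s1 (e2 p.m)))) = true
    rcases hm with ⟨h, h'⟩ | ⟨h, h'⟩
    · rw [h, h']
      exact S.q_adj _ _ h01
    · rw [h, h', S.adj_symm]
      exact S.q_adj _ _ h01
  have k2 : S.adj (((x ∘ p.f) ∘ s2) (e1 p.m')) (((x ∘ p.f) ∘ s2) (e2 p.m')) = true := by
    show S.adj (x (p.f (s2 (e1 p.m')))) (x (p.f (s2 (e2 p.m')))) = true
    rcases hm' with ⟨h, h'⟩ | ⟨h, h'⟩
    · rw [h, h']
      exact S.q_adj _ _ hab
    · rw [h, h', S.adj_symm]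
      exact S.q_adj _ _ hab
  refine conn_glue S x (p.f ∘ s1) (p.f ∘ s2) (conn_of_key S p.m _ k1 h1)
    (conn_of_key S p.m' _ k2 h2) 0 0 rfl ?_
  intro k
  obtain ⟨j, hj⟩ := (Finite.injective_iff_surjective.1 hinj) k
  subst hj
  fin_cases j
  · exact Or.inl ⟨0, rfl⟩
  · exact Or.inl ⟨1, rfl⟩
  · exact Or.inl ⟨2, rfl⟩
  · exact Or.inl ⟨3, rfl⟩
  · exact Or.inl ⟨4, rfl⟩
  · exact Or.inr ⟨4, rfl⟩

theorem conn_GC (S : Sys V) (a b : Fin 6) (p : PC) (hp : p.Good a b) (x : Fin 6 → V)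
    (h01 : S.q (x 0) (x 1) = true) (hab : S.q (x a) (x b) = true)
    (h1 : ckg (S.key4 p.m ((x ∘ p.f) ∘ t1)) = true)
    (h2 : ckg (S.key4 p.m' ((x ∘ p.f) ∘ t2)) = true) : Conn S x := by
  obtain ⟨hinj, hm, hm'⟩ := hp
  have k1 : S.adj (((x ∘ p.f) ∘ t1) (c1 p.m)) (((x ∘ p.f) ∘ t1) (c2 p.m)) = true := by
    show S.adj (x (p.f (t1 (c1 p.m)))) (x (p.f (t1 (c2 p.m)))) = true
    rcases hm with ⟨h, h'⟩ | ⟨h, h'⟩
    · rw [h, h']
      exact S.q_adj _ _ h01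
    · rw [h, h', S.adj_symm]
      exact S.q_adj _ _ h01
  have k2 : S.adj (((x ∘ p.f) ∘ t2) (c1 p.m')) (((x ∘ p.f) ∘ t2) (c2 p.m')) = true := by
    show S.adj (x (p.f (t2 (c1 p.m')))) (x (p.f (t2 (c2 p.m')))) = true
    rcases hm' with ⟨h, h'⟩ | ⟨h, h'⟩
    · rw [h, h']
      exact S.q_adj _ _ hab
    · rw [h, h', S.adj_symm]
      exact S.q_adj _ _ hab
  refine conn_glue S x (p.f ∘ t1) (p.f ∘ t2) (conn_of_key4 S p.m _ k1 h1)
    (conn_of_key4 S p.m' _ k2 h2) 0 0 rfl ?_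
  intro k
  obtain ⟨j, hj⟩ := (Finite.injective_iff_surjective.1 hinj) k
  subst hj
  fin_cases j
  · exact Or.inl ⟨0, rfl⟩
  · exact Or.inl ⟨1, rfl⟩
  · exact Or.inl ⟨2, rfl⟩
  · exact Or.inl ⟨3, rfl⟩
  · exact Or.inr ⟨2, rfl⟩
  · exact Or.inr ⟨3, rfl⟩

/-- If the tables vanish on the disconnected flags then the squares vanish on disconnected
tuples. -/
theorem KS_of_not_conn (S : Sys V) (τ : Tab) (a b : Fin 6) (lA : List (List PA)) (lC : List PC)
    (hA : ∀ p ∈ lA.flatten, p.Good a b) (hC : ∀ p ∈ lC, p.Good a b)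
    (hXA : ∀ r k k', (ck k = false ∨ ck k' = false) → τ.XA r (τ.idA k) (τ.idA k') = 0)
    (hXC : ∀ r k k', (ckg k = false ∨ ckg k' = false) → τ.XC r (τ.idC k) (τ.idC k') = 0)
    (x : Fin 6 → V) (h01 : S.q (x 0) (x 1) = true) (hab : S.q (x a) (x b) = true)
    (hx : ¬ Conn S x) : S.KS τ lA lC x = 0 := by
  unfold Sys.KS
  have e1 : (lA.flatten.map (fun p => S.GA τ.idA τ.XA p.m p.m' (x ∘ p.f))).sum = 0 := by
    refine List.sum_eq_zero fun r hr => ?_
    obtain ⟨p, hp, rfl⟩ := List.mem_map.1 hr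
    refine hXA _ _ _ ?_
    by_contra hc
    rw [not_or, Bool.not_eq_false, Bool.not_eq_false] at hc
    exact hx (conn_GA S a b p (hA p hp) x h01 hab hc.1 hc.2)
  have e2 : (lC.map (fun p => S.GC τ.idC τ.XC p.m p.m' (x ∘ p.f))).sum = 0 := by
    refine List.sum_eq_zero fun r hr => ?_
    obtain ⟨p, hp, rfl⟩ := List.mem_map.1 hr
    refine hXC _ _ _ ?_
    by_contra hc
    rw [not_or, Bool.not_eq_false, Bool.not_eq_false] at hc
    exact hx (conn_GC S a b p (hC p hp) x h01 hab hc.1 hc.2)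
  rw [e1, e2]
  rfl

/-- If the multipliers vanish on the disconnected tuples of five vertices then the regularity
terms vanish on disconnected tuples. -/
theorem RR_of_not_conn (S : Sys V) (ω : (Fin 5 → V) → Fin 5 → ℤ) (l : List (Fin 6 → Fin 6))
    (hl : ∀ g ∈ l, Function.Injective g) (x : Fin 6 → V)
    (hω : ∀ g ∈ l, ∀ z, ω ((x ∘ g) ∘ t5) z ≠ 0 → ConnF S ((x ∘ g) ∘ t5)) (hx : ¬ Conn S x) :
    S.RR ω l x = 0 := by
  unfold Sys.RR
  refine List.sum_eq_zero fun r hr => ?_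
  obtain ⟨g, hg, rfl⟩ := List.mem_map.1 hr
  unfold Sys.rg
  refine sum_eq_zero fun z _ => ?_
  by_contra hc
  have h1 : ω ((x ∘ g) ∘ t5) z ≠ 0 := fun h => hc (by rw [h, zero_mul])
  have h2 : S.adj ((x ∘ g) (t5 z)) ((x ∘ g) 5) = true := by
    by_contra h
    apply hc
    unfold Sys.a
    rw [Bool.not_eq_true] at h
    rw [h]
    simp
  have h3 := hω g hg z h1
  have h4 : ConnF S (x ∘ (fun i : Fin 2 => if i = 0 then g (t5 z) else g 5)) := by
    intro P hP hP2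
    by_contra hno
    have h5 := cross S _ P hno 0 1 (by simpa using h2)
    obtain ⟨i, hi⟩ := hP
    apply hP2
    ext j
    simp only [mem_univ, iff_true]
    fin_cases i <;> fin_cases j
    · exact hi
    · exact h5.1 hi
    · exact h5.2 hi
    · exact hi
  refine hx (conn_glue S x (g ∘ t5) (fun i : Fin 2 => if i = 0 then g (t5 z) else g 5) h3 h4 z 0
    rfl ?_)
  intro k
  obtain ⟨j, hj⟩ := (Finite.injective_iff_surjective.1 (hl g hg)) k
  subst hj
  fin_cases j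
  · exact Or.inl ⟨0, rfl⟩
  · exact Or.inl ⟨1, rfl⟩
  · exact Or.inl ⟨2, rfl⟩
  · exact Or.inl ⟨3, rfl⟩
  · exact Or.inl ⟨4, rfl⟩
  · exact Or.inr ⟨1, rfl⟩

end Pool.Agent.Helper60.SL
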