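import Pool.Agent.Helper60.SL.Bound
import Pool.Agent.Helper60.SL.ConnKey
import Pool.Agent.Helper97.RM.RQF

/-!
# From a certificate to the robust quadratic inequality
-/

set_option autoImplicit false

namespace Pool.Agent.Helper60.SL

open Finset Pool.Agent.Helper96.FC

/-- The multipliers of a regularity term, for all systems. -/
def Mult : Type 1 := ∀ (V : Type) [Fintype V], Sys V → (Fin 5 → V) → Fin 5 → ℤ

/-- The multipliers have sum zero, are bounded and vanish on disconnected tuples with the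
marks `0, 1` and `a, b`. -/
structure MultOk (ω : Mult) (a b : Fin 5) (B : ℕ) : Prop where
  sum : ∀ (V : Type) [Fintype V] (S : Sys V) (y : Fin 5 → V), ∑ z : Fin 5, ω V S y z = 0
  le : ∀ (V : Type) [Fintype V] (S : Sys V) (y : Fin 5 → V) (z : Fin 5), ω V S y z ≤ B
  conn : ∀ (V : Type) [Fintype V] (S : Sys V) (y : Fin 5 → V), S.q (y 0) (y 1) = true →
    S.q (y a) (y b) = true → ∀ z, ω V S y z ≠ 0 → ConnF S y

theorem rqf_of_cert (τ : Tab) (N : ℕ) (hN : 0 < N) (B : ℕ) (ωC ωB ωA : Mult)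
    (mC : MultOk ωC 2 3 B) (mB : MultOk ωB 0 2 B) (mA : MultOk ωA 0 1 B)
    (hXA : ∀ r k k', (ck k = false ∨ ck k' = false) → τ.XA r (τ.idA k) (τ.idA k') = 0)
    (hXC : ∀ r k k', (ckg k = false ∨ ckg k' = false) → τ.XC r (τ.idC k) (τ.idC k') = 0)
    (hC : ∀ (V : Type) [Fintype V] (S : Sys V) (x : Fin 6 → V), S.q (x 0) (x 1) = true →
      S.q (x 2) (x 3) = true → Good S x →
      S.KS τ plCA plCC x + S.RR (ωC V S) gC x + 8 * N * (S.dg4 x 4 * S.dg4 x 5 : ℕ) ≤ 0)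
    (hB : ∀ (V : Type) [Fintype V] (S : Sys V) (x : Fin 6 → V), S.q (x 0) (x 1) = true →
      S.q (x 0) (x 2) = true → Good S x → S.KS τ plBA plBC x + S.RR (ωB V S) gB x ≤ 0)
    (hA : ∀ (V : Type) [Fintype V] (S : Sys V) (x : Fin 6 → V), S.q (x 0) (x 1) = true →
      S.q (x 0) (x 1) = true → Good S x →
      S.KS τ plAA plAC x + S.RR (ωA V S) gA x ≤ 16 * N * (S.oA x : ℕ)) :
    ∃ C0 : ℝ, 0 ≤ C0 ∧ ∀ (W : Type) [Fintype W] (G : SimpleGraph W) (D : ℕ), 1 ≤ D →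
      (∀ x, dg G x = D) → RM.RQF G (5 / 4) C0 D := by
  obtain ⟨MC, hMC⟩ : ∃ m : ℕ, m = plCA.flatten.length * tb3 64 17280 τ.XA τ.idA +
    plCC.length * tb3 2 432 τ.XC τ.idC + gC.length * (5 * B) + 8 * N * 16 := ⟨_, rfl⟩
  obtain ⟨MB, hMB⟩ : ∃ m : ℕ, m = plBA.flatten.length * tb3 64 17280 τ.XA τ.idA +
    plBC.length * tb3 2 432 τ.XC τ.idC + gB.length * (5 * B) := ⟨_, rfl⟩
  obtain ⟨MA, hMA⟩ : ∃ m : ℕ, m = plAA.flatten.length * tb3 64 17280 τ.XA τ.idA +
    plAC.length * tb3 2 432 τ.XC τ.idC + gA.length * (5 * B) := ⟨_, rfl⟩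
  obtain ⟨M, hM⟩ : ∃ m : ℕ, m = MC + MB + MA := ⟨_, rfl⟩
  refine ⟨300 * (M : ℝ), by positivity, fun W _ G D hD hreg lam l h0 hl hs ha => ?_⟩
  refine robust_of_sys (300 * (M : ℝ)) (fun V _ S l' hSD hl' => ?_) G D hD hreg lam l h0 hl hs ha
  have hM1 : (MC : ℤ) ≤ (M : ℤ) := by exact_mod_cast (by omega : MC ≤ M)
  have hM2 : (MB : ℤ) ≤ (M : ℤ) := by exact_mod_cast (by omega : MB ≤ M)
  have hM3 : (MA : ℤ) ≤ (M : ℤ) := by exact_mod_cast (by omega : MA ≤ M)
  refine main_robust S hSD τ N hN (ωC V S) (ωB V S) (ωA V S) (mC.sum V S) (mB.sum V S)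
    (mA.sum V S) (hC V S) (hB V S) (hA V S) ?_ ?_ ?_ M ?_ ?_ ?_ l' hl'
  · intro x h1 h2 h3
    have e1 := KS_of_not_conn S τ 2 3 plCA plCC goodA_C goodC_C hXA hXC x h1 h2 h3
    have e2 := RR_of_not_conn S (ωC V S) gC (fun g hg => (gC_ok g hg).1) x (fun g hg z hz => by
      obtain ⟨-, g0, g1, g2, g3⟩ := gC_ok g hg
      refine mC.conn V S _ ?_ ?_ z hz
      · show S.q (x (g 0)) (x (g 1)) = true
        rw [g0, g1]
        exact h1
      · show S.q (x (g 2)) (x (g 3)) = true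
        rw [g2, g3]
        exact h2) h3
    rw [e1, e2]
    exact le_of_eq (add_zero 0)
  · intro x h1 h2 h3
    have e1 := KS_of_not_conn S τ 0 2 plBA plBC goodA_B goodC_B hXA hXC x h1 h2 h3
    have e2 := RR_of_not_conn S (ωB V S) gB (fun g hg => (gB_ok g hg).1) x (fun g hg z hz => by
      obtain ⟨-, g0, g1, -, g3⟩ := gB_ok g hg
      refine mB.conn V S _ ?_ ?_ z hz
      · show S.q (x (g 0)) (x (g 1)) = true
        rw [g0, g1]
        exact h1
      · show S.q (x (g 0)) (x (g 2)) = true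
        rw [g0, g3]
        exact h2) h3
    rw [e1, e2]
    exact le_of_eq (add_zero 0)
  · intro x h1 h2 h3
    have e1 := KS_of_not_conn S τ 0 1 plAA plAC goodA_A goodC_A hXA hXC x h1 h2 h3
    have e2 := RR_of_not_conn S (ωA V S) gA (fun g hg => (gA_ok g hg).1) x (fun g hg z hz => by
      obtain ⟨-, g0, g1, -, -⟩ := gA_ok g hg
      refine mA.conn V S _ ?_ ?_ z hz
      · show S.q (x (g 0)) (x (g 1)) = true
        rw [g0, g1]
        exact h1
      · show S.q (x (g 0)) (x (g 1)) = true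
        rw [g0, g1]
        exact h1) h3
    rw [e1, e2]
    exact le_of_eq (add_zero 0)
  · intro x
    have e1 := KS_le τ plCA plCC S x
    have e2 := RR_le S (ωC V S) gC B (mC.le V S) x
    have e3 : (8 : ℤ) * N * (S.dg4 x 4 * S.dg4 x 5 : ℕ) ≤ 8 * N * 16 := by
      exact_mod_cast Nat.mul_le_mul_left (8 * N) (dd_le S x)
    rw [hMC] at hM1
    push_cast at hM1 e1 e2 e3 ⊢
    linarith
  · intro x
    have e1 := KS_le τ plBA plBC S x
    have e2 := RR_le S (ωB V S) gB B (mB.le V S) x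
    rw [hMB] at hM2
    push_cast at hM2 e1 e2 ⊢
    linarith
  · intro x
    have e1 := KS_le τ plAA plAC S x
    have e2 := RR_le S (ωA V S) gA B (mA.le V S) x
    rw [hMA] at hM3
    push_cast at hM3 e1 e2 ⊢
    linarith

end Pool.Agent.Helper60.SL
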