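import Pool.Agent.Helper60.SL.Graph

/-!
# Strong cliques have at most as many edges as the fractional strong chromatic index
-/

set_option autoImplicit false

namespace Pool.Agent.Helper60.SL

open Finset
open scoped Classical

theorem clique_card_le {V : Type} [Fintype V] {G : SimpleGraph V} {R : ℝ} {Q : Finset (Sym2 V)}
    (hR : FracStrongIndexLE G R) (hQE : ∀ e ∈ Q, e ∈ G.edgeSet)
    (hQ : ∀ e ∈ Q, ∀ f ∈ Q, e ≠ f → ∃ u ∈ e, ∃ v ∈ f, u = v ∨ G.Adj u v) :
    (Q.card : ℝ) ≤ R := by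
  obtain ⟨p, hp0, hpM, hpR, hpc⟩ := hR
  refine le_trans ?_ hpR
  have h1 : (Q.card : ℝ) = ∑ _e ∈ Q, (1 : ℝ) := by
    rw [sum_const, nsmul_eq_mul, mul_one]
  rw [h1]
  refine (sum_le_sum fun e he => hpc e (hQE e he)).trans ?_
  simp only [sum_filter]
  rw [sum_comm]
  refine sum_le_sum fun M _ => ?_
  by_cases hM : p M = 0
  · rw [hM]
    simp
  · have hind := (hpM M hM).2
    have h2 : (Q.filter (fun e => e ∈ M)).card ≤ 1 := by
      rw [card_le_one]
      intro e he f hf
      rw [mem_filter] at he hf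
      by_contra hne
      obtain ⟨u, hu, v, hv, h⟩ := hQ e he.1 f hf.1 hne
      obtain ⟨h3, h4⟩ := hind e he.2 f hf.2 hne u hu v hv
      exact h.elim h3 h4
    rw [← sum_filter, sum_const, nsmul_eq_mul]
    have h3 : ((Q.filter (fun e => e ∈ M)).card : ℝ) ≤ 1 := by exact_mod_cast h2
    nlinarith [hp0 M]

end Pool.Agent.Helper60.SL
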