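import Pool.Agent.Helper60.SL.MulC
import Pool.Agent.Helper96.FC.TypA

/-!
# The multipliers of type A
-/

set_option autoImplicit false

namespace Pool.Agent.Helper60.SL

open Finset Pool.Agent.Helper96.FC

noncomputable def zA (s t u k l m : ℕ) : Bool :=
  cond (ck5 (!s.beq 0) (!t.beq 0) (!u.beq 0) (!k.beq 0) (!l.beq 0) (!m.beq 0)) true
    (wz (prA (ixA s t u k l m)))

theorem zA_all : allN 6 (fun s => allN 6 (fun t => allN 6 (fun u => allN 2 (fun k =>
    allN 2 (fun l => allN 2 (fun m => zA s t u k l m)))))) = true := by decide +kernel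

theorem prA_zero {s t u k l m : ℕ} (hs : s < 6) (ht : t < 6) (hu : u < 6) (hk : k < 2)
    (hl : l < 2) (hm : m < 2) :
    ck5 (!s.beq 0) (!t.beq 0) (!u.beq 0) (!k.beq 0) (!l.beq 0) (!m.beq 0) = true ∨
      ∀ z : Fin 5, wdg (prA (ixA s t u k l m)) z = cW := by
  have h := (allN_iff _ _).1 ((allN_iff _ _).1 ((allN_iff _ _).1 ((allN_iff _ _).1
    ((allN_iff _ _).1 ((allN_iff _ _).1 zA_all s hs) t ht) u hu) k hk) l hl) m hm
  unfold zA at h
  rcases hc : ck5 (!s.beq 0) (!t.beq 0) (!u.beq 0) (!k.beq 0) (!l.beq 0) (!m.beq 0) with _ | _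
  · rw [hc, cond_false] at h
    exact Or.inr (wz_ok h)
  · exact Or.inl rfl

theorem mulA (R : ∀ i < 1728, chkR (prA i) = true) :
    MultOk (fun _ _ S => Sys.omA S) 0 1 (2 ^ 50) where
  sum := by
    intro V _ S y
    show ∑ z : Fin 5, S.omA y z = 0
    unfold Sys.omA
    refine wdg_sum (R _ ?_)
    have h1 := S.vw_lt (y 0) (y 1) (y 2)
    have h2 := S.vw_lt (y 0) (y 1) (y 3)
    have h3 := S.vw_lt (y 0) (y 1) (y 4)
    have h4 := S.a_le (y 2) (y 3)
    have h5 := S.a_le (y 2) (y 4)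
    have h6 := S.a_le (y 3) (y 4)
    show 8 * (6 * (6 * _ + _) + _) + (2 * (2 * _ + _) + _) < _
    omega
  le := by
    intro V _ S y z
    show S.omA y z ≤ _
    unfold Sys.omA
    refine wdg_le (R _ ?_) z
    have h1 := S.vw_lt (y 0) (y 1) (y 2)
    have h2 := S.vw_lt (y 0) (y 1) (y 3)
    have h3 := S.vw_lt (y 0) (y 1) (y 4)
    have h4 := S.a_le (y 2) (y 3)
    have h5 := S.a_le (y 2) (y 4)
    have h6 := S.a_le (y 3) (y 4)
    show 8 * (6 * (6 * _ + _) + _) + (2 * (2 * _ + _) + _) < _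
    omega
  conn := by
    intro V _ S y h01 _ z hz
    have hz : S.omA y z ≠ 0 := hz
    by_contra hc
    apply hz
    unfold Sys.omA
    rcases prA_zero (S.vw_lt (y 0) (y 1) (y 2)) (S.vw_lt (y 0) (y 1) (y 3))
      (S.vw_lt (y 0) (y 1) (y 4)) (a_lt S (y 2) (y 3)) (a_lt S (y 2) (y 4))
      (a_lt S (y 3) (y 4)) with h | h
    · exfalso
      apply hc
      refine conn_of_key S 0 y (S.q_adj _ _ h01) ?_
      unfold Sys.key
      rw [ck_keyf (S.vw_lt _ _ _) (S.vw_lt _ _ _) (S.vw_lt _ _ _) (a_lt S _ _) (a_lt S _ _)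
        (a_lt S _ _)]
      exact h
    · rw [h z]
      exact sub_self _

end Pool.Agent.Helper60.SL
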