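import Pool.Agent.Helper60.SL.MulC
import Pool.Agent.Helper96.FC.TypB

/-!
# The multipliers of type B
-/

set_option autoImplicit false

namespace Pool.Agent.Helper60.SL

open Finset Pool.Agent.Helper96.FC

noncomputable def zB (a u v k : ℕ) : Bool :=
  cond ((!u.beq 0 && !v.beq 0) || ((!u.beq 0 && !k.beq 0) || (!v.beq 0 && !k.beq 0))) true
    (wz (prB (ixB a u v k)))

theorem zB_all : allN 2 (fun a => allN 16 (fun u => allN 16 (fun v => allN 2 (fun k =>
    zB a u v k)))) = true := by decide +kernel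

theorem nbz' {n : ℕ} (h : (!n.beq 0) = true) : n ≠ 0 := by
  rintro rfl
  exact absurd h (by decide)

theorem prB_zero {a u v k : ℕ} (ha : a < 2) (hu : u < 16) (hv : v < 16) (hk : k < 2) :
    ((u ≠ 0 ∧ v ≠ 0) ∨ (u ≠ 0 ∧ k ≠ 0) ∨ (v ≠ 0 ∧ k ≠ 0)) ∨
      ∀ z : Fin 5, wdg (prB (ixB a u v k)) z = cW := by
  have h := (allN_iff _ _).1 ((allN_iff _ _).1 ((allN_iff _ _).1 ((allN_iff _ _).1
    zB_all a ha) u hu) v hv) k hk
  unfold zB at h
  rcases hc : ((!u.beq 0 && !v.beq 0) || ((!u.beq 0 && !k.beq 0) || (!v.beq 0 && !k.beq 0)))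
    with _ | _
  · rw [hc, cond_false] at h
    exact Or.inr (wz_ok h)
  · left
    simp only [Bool.or_eq_true, Bool.and_eq_true] at hc
    rcases hc with ⟨h1, h2⟩ | ⟨h1, h2⟩ | ⟨h1, h2⟩
    · exact Or.inl ⟨nbz' h1, nbz' h2⟩
    · exact Or.inr (Or.inl ⟨nbz' h1, nbz' h2⟩)
    · exact Or.inr (Or.inr ⟨nbz' h1, nbz' h2⟩)

theorem uI_zero : uI 0 0 = 0 := by decide +kernel

theorem mulB (R : ∀ i < 1024, chkR (prB i) = true) :
    MultOk (fun _ _ S => Sys.omB S) 0 2 (2 ^ 50) where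
  sum := by
    intro V _ S y
    show ∑ z : Fin 5, S.omB y z = 0
    unfold Sys.omB
    refine wdg_sum (R _ ?_)
    have h1 := S.ub_lt (y 0) (y 1) (y 2) (y 3)
    have h2 := S.ub_lt (y 0) (y 1) (y 2) (y 4)
    have h4 := S.a_le (y 1) (y 2)
    have h5 := S.a_le (y 3) (y 4)
    show 2 * (16 * (16 * _ + _) + _) + _ < _
    omega
  le := by
    intro V _ S y z
    show S.omB y z ≤ _
    unfold Sys.omB
    refine wdg_le (R _ ?_) z
    have h1 := S.ub_lt (y 0) (y 1) (y 2) (y 3)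
    have h2 := S.ub_lt (y 0) (y 1) (y 2) (y 4)
    have h4 := S.a_le (y 1) (y 2)
    have h5 := S.a_le (y 3) (y 4)
    show 2 * (16 * (16 * _ + _) + _) + _ < _
    omega
  conn := by
    intro V _ S y h01 h02 z hz
    have hz : S.omB y z ≠ 0 := hz
    unfold Sys.omB at hz
    intro P hP hP2
    by_contra hno
    have c1 := cross S y P hno 0 1 (S.q_adj _ _ h01)
    have c2 := cross S y P hno 0 2 (S.q_adj _ _ h02)
    have hu : ∀ k : Fin 5, S.ub (y 0) (y 1) (y 2) (y k) ≠ 0 → ((0 : Fin 5) ∈ P ↔ k ∈ P) := by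
      intro k hk
      by_contra hne
      apply hk
      unfold Sys.ub
      have e1 : S.vw (y 0) (y 1) (y k) = 0 := by
        by_contra h
        exact hne (vw_cross S y P hno 0 1 k c1 (nbz h))
      have e2 : S.vw (y 0) (y 2) (y k) = 0 := by
        by_contra h
        exact hne (vw_cross S y P hno 0 2 k c2 (nbz h))
      rw [e1, e2]
      exact uI_zero
    have ha : S.a (y 3) (y 4) ≠ 0 → ((3 : Fin 5) ∈ P ↔ 4 ∈ P) := fun h =>
      a_cross S y P hno 3 4 (nbz h)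
    have h34 : ((0 : Fin 5) ∈ P ↔ 3 ∈ P) ∧ ((0 : Fin 5) ∈ P ↔ 4 ∈ P) := by
      rcases prB_zero (a_lt S (y 1) (y 2)) (S.ub_lt (y 0) (y 1) (y 2) (y 3))
        (S.ub_lt (y 0) (y 1) (y 2) (y 4)) (a_lt S (y 3) (y 4)) with h | h
      · rcases h with ⟨h1, h2⟩ | ⟨h1, h2⟩ | ⟨h1, h2⟩
        · exact ⟨hu 3 h1, hu 4 h2⟩
        · exact ⟨hu 3 h1, (hu 3 h1).trans (ha h2)⟩
        · exact ⟨(hu 4 h1).trans (ha h2).symm, hu 4 h1⟩
      · exfalso
        apply hz
        rw [h z]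
        exact sub_self _
    refine all_or_none P 0 (fun i => ?_) hP hP2
    fin_cases i
    · exact Iff.rfl
    · exact c1
    · exact c2
    · exact h34.1
    · exact h34.2

end Pool.Agent.Helper60.SL
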