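import Pool.Agent.Helper60.SL.KConn
import Pool.Agent.Helper60.SL.MulA
import Pool.Agent.Helper60.SL.MulB
import Pool.Agent.Helper96.FC.Pt

/-!
# The robust quadratic inequality with the constant `5/4`
-/

set_option autoImplicit false

namespace Pool.Agent.Helper60.SL

open Finset Pool.Agent.Helper96.FC

/-- The quadratic inequality with the constant `5/4` for all regular graphs, with defects. -/
theorem rqf : ∃ C0 : ℝ, 0 ≤ C0 ∧ ∀ (W : Type) [Fintype W] (G : SimpleGraph W) (D : ℕ), 1 ≤ D →
    (∀ x, dg G x = D) → RM.RQF G (5 / 4) C0 D :=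
  rqf_of_cert tau scl (by unfold scl; norm_num) (2 ^ 50) (fun _ _ S => Sys.omC S)
    (fun _ _ S => Sys.omB S) (fun _ _ S => Sys.omA S) (mulC kregC) (mulB kregB) (mulA kregA)
    XA_zero XC_zero (fun _ _ S => S.goodC) (fun _ _ S => S.goodB)
    (fun _ _ S x h01 _ _ => S.goodA x h01)

end Pool.Agent.Helper60.SL
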