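import Pool.Agent.Helper60.SL.Clique
import Pool.Agent.Results.MP_7b9cc4_co.FractionalFiveFourths

/-!
# Strong cliques have at most `5Δ²/4` edges
-/

set_option autoImplicit false

namespace Pool.Agent.Helper60.SL.CliqueFive

open Finset
open scoped Classical

/-- `Q` is a strong clique of `G`: a set of edges, any two of which share an endpoint or are
joined by an edge of `G`. -/
def IsStrongClique {V : Type} (G : SimpleGraph V) (Q : Finset (Sym2 V)) : Prop :=
  (∀ e ∈ Q, e ∈ G.edgeSet) ∧
    ∀ e ∈ Q, ∀ f ∈ Q, e ≠ f → ∃ u ∈ e, ∃ v ∈ f, u = v ∨ G.Adj u v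

/-- For every finite graph all of whose degrees are at most `D`, every strong clique has at most
`5D²/4` edges. -/
theorem strong_clique (V : Type) [Fintype V] (G : SimpleGraph V) (D : ℕ)
    (hdeg : ∀ x, (univ.filter (fun y => G.Adj x y)).card ≤ D) (Q : Finset (Sym2 V))
    (hQ : IsStrongClique G Q) : (Q.card : ℝ) ≤ 5 / 4 * (D : ℝ) ^ 2 :=
  clique_card_le (Results.MP_7b9cc4_co.FractionalFiveFourths.result V G D hdeg) hQ.1 hQ.2

end Pool.Agent.Helper60.SL.CliqueFive
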