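import Pool.Agent.Helper60.SL.Graph
import Pool.Agent.Helper96.FC.Red

/-!
# From weighted systems to the quadratic form inequality
-/

set_option autoImplicit false

namespace Pool.Agent.Helper60.SL

open Finset Pool.Agent.Helper96.FC
open scoped Classical

/-- The system of a regular graph with weights. -/
noncomputable def sysOf {W : Type} [Fintype W] (H : SimpleGraph W) (D : ℕ)
    (hreg : ∀ x, dg H x = D) (lam : W → W → ℝ) (h0 : ∀ x y, 0 ≤ lam x y)
    (hs : ∀ x y, lam x y = lam y x) (ha : ∀ x y, lam x y ≠ 0 → H.Adj x y) : Sys W where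
  adj u v := decide (H.Adj u v)
  q u v := decide (lam u v ≠ 0)
  lam := lam
  D := D
  adj_symm u v := by
    rw [decide_eq_decide]
    exact ⟨fun h => h.symm, fun h => h.symm⟩
  adj_irr v := decide_eq_false (H.loopless.irrefl v)
  q_symm u v := by rw [hs]
  q_adj u v h := decide_eq_true (ha u v (of_decide_eq_true h))
  reg v := by
    rw [← hreg v]
    unfold dg
    congr 1
    ext w
    simp
  lam_symm := hs
  lam_nonneg := h0
  lam_q u v h := by
    by_contra hc
    exact (of_decide_eq_false h) hc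

/-- The objective of the system in terms of the graph. -/
theorem obj_eq {W : Type} [Fintype W] (H : SimpleGraph W) (D : ℕ)
    (hreg : ∀ x, dg H x = D) (lam : W → W → ℝ) (h0 : ∀ x y, 0 ≤ lam x y)
    (hs : ∀ x y, lam x y = lam y x) (ha : ∀ x y, lam x y ≠ 0 → H.Adj x y) (a b : W) :
    ((((sysOf H D hreg lam h0 hs ha).D : ℝ) ^ 2 +
        2 * (sysOf H D hreg lam h0 hs ha).D *
          ∑ u, (((sysOf H D hreg lam h0 hs ha).a a u * (sysOf H D hreg lam h0 hs ha).a b u : ℕ) : ℝ)
        + ∑ u, ∑ v, (((sysOf H D hreg lam h0 hs ha).uu a b u *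
          (sysOf H D hreg lam h0 hs ha).uu a b v *
            (sysOf H D hreg lam h0 hs ha).a u v : ℕ) : ℝ))) = 2 * F H (5 / 4) D a b := by
  have h1 : ∀ u v, (sysOf H D hreg lam h0 hs ha).a u v = if H.Adj u v then 1 else 0 := by
    intro u v
    show (decide (H.Adj u v)).toNat = _
    by_cases h : H.Adj u v <;> simp [h]
  have h2 : ∀ u, (sysOf H D hreg lam h0 hs ha).uu a b u = if u ∈ un H a b then 1 else 0 := by
    intro u
    show (decide (H.Adj a u) || decide (H.Adj b u)).toNat = _
    by_cases h : u ∈ un H a b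
    · rw [if_pos h]
      rcases mem_un.1 h with h | h <;> simp [h]
    · rw [if_neg h]
      rw [mem_un, not_or] at h
      simp [h.1, h.2]
  have h3 : (sysOf H D hreg lam h0 hs ha).D = D := rfl
  have h4 : ∑ u, (((sysOf H D hreg lam h0 hs ha).a a u *
      (sysOf H D hreg lam h0 hs ha).a b u : ℕ) : ℝ) = ((nb H a ∩ nb H b).card : ℝ) := by
    rw [← Nat.cast_sum]
    congr 1
    rw [card_eq_sum_ones, ← sum_filter_add_sum_filter_not univ (fun u => u ∈ nb H a ∩ nb H b)]
    have e1 : univ.filter (fun u => u ∈ nb H a ∩ nb H b) = nb H a ∩ nb H b := by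
      ext u
      simp
    rw [e1]
    have e2 : ∑ x ∈ univ.filter (fun u => u ∉ nb H a ∩ nb H b),
        (sysOf H D hreg lam h0 hs ha).a a x * (sysOf H D hreg lam h0 hs ha).a b x = 0 := by
      refine sum_eq_zero fun x hx => ?_
      have hx := (mem_filter.1 hx).2
      rw [mem_inter, mem_nb, mem_nb] at hx
      rw [h1, h1]
      by_cases h5 : H.Adj a x
      · rw [if_neg (fun h6 => hx ⟨h5, h6⟩), mul_zero]
      · rw [if_neg h5, zero_mul]
    rw [e2, add_zero]
    refine sum_congr rfl fun x hx => ?_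
    rw [mem_inter, mem_nb, mem_nb] at hx
    rw [h1, h1, if_pos hx.1, if_pos hx.2]
  have h5 : ∑ u, ∑ v, (((sysOf H D hreg lam h0 hs ha).uu a b u *
      (sysOf H D hreg lam h0 hs ha).uu a b v *
        (sysOf H D hreg lam h0 hs ha).a u v : ℕ) : ℝ) = ((inn H a b).card : ℝ) := by
    unfold inn
    rw [card_filter, Nat.cast_sum, ← univ_product_univ, sum_product]
    refine sum_congr rfl fun u _ => sum_congr rfl fun v _ => ?_
    congr 1
    rw [h1, h2, h2]
    by_cases e1 : H.Adj u v <;> by_cases e2 : u ∈ un H a b <;> by_cases e3 : v ∈ un H a b <;>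
      simp [e1, e2, e3]
  have h6 : (un H a b).card + (nb H a ∩ nb H b).card = 2 * D := by
    unfold un
    rw [card_union_add_card_inter]
    have h7 : (nb H a).card = D := hreg a
    have h8 : (nb H b).card = D := hreg b
    omega
  have h7 : ((un H a b).card : ℝ) = 2 * D - ((nb H a ∩ nb H b).card : ℝ) := by
    have : ((un H a b).card : ℝ) + ((nb H a ∩ nb H b).card : ℝ) = 2 * D := by exact_mod_cast h6
    linarith
  rw [h4, h5, h3]
  unfold F
  rw [h7]
  ring

/-- The inequality of the system gives the quadratic form inequality. -/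
theorem QF_of_sys (hmain : ∀ (W : Type) [Fintype W] (S : Sys W), 1 ≤ S.D → S.Clique →
      (∑ u, ∑ v, S.lam u v) ^ 2 ≤ ∑ a, ∑ b, S.lam a b ^ 2 *
        ((S.D : ℝ) ^ 2 + 2 * S.D * ∑ u, ((S.a a u * S.a b u : ℕ) : ℝ) +
          ∑ u, ∑ v, ((S.uu a b u * S.uu a b v * S.a u v : ℕ) : ℝ)))
    {W : Type} [Fintype W] (H : SimpleGraph W) (D : ℕ) (hD : 1 ≤ D)
    (hreg : ∀ x, dg H x = D) : QF H (5 / 4) D := by
  intro lam h0 hs ha hcl
  have h1 := hmain W (sysOf H D hreg lam h0 hs ha) hD (by
    intro x y z w h1 h2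
    have h3 := hcl x y z w (of_decide_eq_true h1) (of_decide_eq_true h2)
    show (decide (H.Adj x z) || decide (H.Adj x w) || decide (H.Adj y z) ||
      decide (H.Adj y w)) = true
    rcases h3 with h | h | h | h <;> simp [h])
  refine le_trans h1 (le_of_eq ?_)
  rw [mul_sum]
  refine sum_congr rfl fun a _ => ?_
  rw [mul_sum]
  refine sum_congr rfl fun b _ => ?_
  rw [obj_eq]
  show lam a b ^ 2 * (2 * F H (5 / 4) D a b) = 2 * (lam a b ^ 2 * F H (5 / 4) D a b)
  ring

end Pool.Agent.Helper60.SL
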