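import Pool.Agent.Helper96.FC.Red

/-!
# Tuples which contain two edges of the system that do not conflict
-/

set_option autoImplicit false

namespace Pool.Agent.Helper60.SL

open Finset Pool.Agent.Helper96.FC

variable {V : Type} [Fintype V]

/-- Two pairs of vertices are joined by an edge. -/
def cf (S : Sys V) (x y z w : V) : Bool := S.adj x z || S.adj x w || S.adj y z || S.adj y w

/-- A non-conflicting pair of edges of the system. -/
def nc (S : Sys V) (x y z w : V) : Bool := S.q x y && S.q z w && !(cf S x y z w)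

/-- The number of (ordered) non-conflicting pairs of (ordered) edges. -/
noncomputable def NC (S : Sys V) : ℕ :=
  (univ.filter (fun p : V × V × V × V => nc S p.1 p.2.1 p.2.2.1 p.2.2.2 = true)).card

theorem sum_snoc (n : ℕ) (F : (Fin (n + 1) → V) → ℝ) :
    ∑ y : Fin (n + 1) → V, F y = ∑ y : Fin n → V, ∑ v, F (Fin.snoc (α := fun _ => V) y v) := by
  classical
  rw [← sum_product']
  refine sum_nbij' (fun ω => (fun i => ω i.castSucc, ω (Fin.last n)))
    (fun z => Fin.snoc (α := fun _ => V) z.1 z.2) ?_ ?_ ?_ ?_ ?_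
  · intro ω _
    exact mem_product.2 ⟨mem_univ _, mem_univ _⟩
  · intro z _
    exact mem_univ _
  · intro ω _
    funext i
    refine Fin.lastCases ?_ (fun j => ?_) i
    · rw [Fin.snoc_last]
    · rw [Fin.snoc_castSucc]
  · intro z _
    refine Prod.ext (funext fun i => ?_) ?_
    · simp
    · simp
  · intro ω _
    congr 1
    funext i
    refine Fin.lastCases ?_ (fun j => ?_) i
    · rw [Fin.snoc_last]
    · rw [Fin.snoc_castSucc]

/-- Sum over the tuples of six vertices of a function of the first four times the adjacencies of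
the two last vertices. -/
theorem sum_six (S : Sys V) (f : V → V → V → V → ℝ) (i : Fin 4) (j : Fin 5) :
    ∑ y : Fin 6 → V, f (y 0) (y 1) (y 2) (y 3) * (S.a (y i.castSucc.castSucc) (y 4) : ℝ) *
      (S.a (y j.castSucc) (y 5) : ℝ) =
    (S.D : ℝ) ^ 2 * ∑ y : Fin 4 → V, f (y 0) (y 1) (y 2) (y 3) := by
  rw [sum_snoc 5]
  have h1 : ∀ (y : Fin 5 → V), ∑ v, f (Fin.snoc (α := fun _ => V) y v 0)
      (Fin.snoc (α := fun _ => V) y v 1) (Fin.snoc (α := fun _ => V) y v 2)
      (Fin.snoc (α := fun _ => V) y v 3) *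
      (S.a (Fin.snoc (α := fun _ => V) y v i.castSucc.castSucc)
        (Fin.snoc (α := fun _ => V) y v 4) : ℝ) *
      (S.a (Fin.snoc (α := fun _ => V) y v j.castSucc) (Fin.snoc (α := fun _ => V) y v 5) : ℝ) =
      (S.D : ℝ) * (f (y 0) (y 1) (y 2) (y 3) * (S.a (y i.castSucc) (y 4) : ℝ)) := by
    intro y
    have e0 : ∀ v, Fin.snoc (α := fun _ => V) y v 0 = y 0 := fun v =>
      Fin.snoc_castSucc (α := fun _ => V) v y 0
    have e1 : ∀ v, Fin.snoc (α := fun _ => V) y v 1 = y 1 := fun v =>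
      Fin.snoc_castSucc (α := fun _ => V) v y 1
    have e2 : ∀ v, Fin.snoc (α := fun _ => V) y v 2 = y 2 := fun v =>
      Fin.snoc_castSucc (α := fun _ => V) v y 2
    have e3 : ∀ v, Fin.snoc (α := fun _ => V) y v 3 = y 3 := fun v =>
      Fin.snoc_castSucc (α := fun _ => V) v y 3
    have e4 : ∀ v, Fin.snoc (α := fun _ => V) y v 4 = y 4 := fun v =>
      Fin.snoc_castSucc (α := fun _ => V) v y 4
    have e5 : ∀ v, Fin.snoc (α := fun _ => V) y v 5 = v := fun v =>
      Fin.snoc_last (α := fun _ => V) v y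
    simp only [Fin.snoc_castSucc, e0, e1, e2, e3, e4, e5]
    rw [← mul_sum, S.sum_a]
    ring
  rw [sum_congr rfl fun y _ => h1 y, ← mul_sum, sum_snoc 4]
  have h2 : ∀ (y : Fin 4 → V), ∑ v, f (Fin.snoc (α := fun _ => V) y v 0)
      (Fin.snoc (α := fun _ => V) y v 1) (Fin.snoc (α := fun _ => V) y v 2)
      (Fin.snoc (α := fun _ => V) y v 3) *
      (S.a (Fin.snoc (α := fun _ => V) y v i.castSucc)
        (Fin.snoc (α := fun _ => V) y v 4) : ℝ) =
      (S.D : ℝ) * f (y 0) (y 1) (y 2) (y 3) := by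
    intro y
    have e0 : ∀ v, Fin.snoc (α := fun _ => V) y v 0 = y 0 := fun v =>
      Fin.snoc_castSucc (α := fun _ => V) v y 0
    have e1 : ∀ v, Fin.snoc (α := fun _ => V) y v 1 = y 1 := fun v =>
      Fin.snoc_castSucc (α := fun _ => V) v y 1
    have e2 : ∀ v, Fin.snoc (α := fun _ => V) y v 2 = y 2 := fun v =>
      Fin.snoc_castSucc (α := fun _ => V) v y 2
    have e3 : ∀ v, Fin.snoc (α := fun _ => V) y v 3 = y 3 := fun v =>
      Fin.snoc_castSucc (α := fun _ => V) v y 3
    have e4 : ∀ v, Fin.snoc (α := fun _ => V) y v 4 = v := fun v =>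
      Fin.snoc_last (α := fun _ => V) v y
    simp only [Fin.snoc_castSucc, e0, e1, e2, e3, e4]
    rw [← mul_sum, S.sum_a]
    ring
  rw [sum_congr rfl fun y _ => h2 y, ← mul_sum]
  ring

theorem sum_four (f : V → V → V → V → ℝ) :
    ∑ y : Fin 4 → V, f (y 0) (y 1) (y 2) (y 3) =
      ∑ p : V × V × V × V, f p.1 p.2.1 p.2.2.1 p.2.2.2 := by
  refine sum_nbij' (fun y => (y 0, y 1, y 2, y 3)) (fun p => ![p.1, p.2.1, p.2.2.1, p.2.2.2])
    ?_ ?_ ?_ ?_ ?_
  · intro y _
    exact mem_univ _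
  · intro y _
    exact mem_univ _
  · intro y _
    funext i
    fin_cases i <;> rfl
  · intro p _
    rfl
  · intro y _
    rfl

/-- The tuple contains a non-conflicting pair from which the two other vertices are reached. -/
def Reach (S : Sys V) (y : Fin 6 → V) : Prop :=
  nc S (y 0) (y 1) (y 2) (y 3) = true ∧ (∃ i : Fin 4, S.adj (y i.castSucc.castSucc) (y 4) = true) ∧
    ∃ j : Fin 5, S.adj (y j.castSucc) (y 5) = true

open scoped Classical in
theorem card_reach (S : Sys V) :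
    ((univ.filter (fun y : Fin 6 → V => Reach S y)).card : ℝ) ≤ 20 * (S.D : ℝ) ^ 2 * NC S := by
  have h1 : ((univ.filter (fun y : Fin 6 → V => Reach S y)).card : ℝ) ≤
      ∑ i : Fin 4, ∑ j : Fin 5, ∑ y : Fin 6 → V,
        (if nc S (y 0) (y 1) (y 2) (y 3) = true then (1 : ℝ) else 0) *
          (S.a (y i.castSucc.castSucc) (y 4) : ℝ) * (S.a (y j.castSucc) (y 5) : ℝ) := by
    rw [card_filter]
    push_cast
    have h2 : ∀ i : Fin 4, ∑ j : Fin 5, ∑ y : Fin 6 → V,
        (if nc S (y 0) (y 1) (y 2) (y 3) = true then (1 : ℝ) else 0) *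
          (S.a (y i.castSucc.castSucc) (y 4) : ℝ) * (S.a (y j.castSucc) (y 5) : ℝ) =
        ∑ y : Fin 6 → V, ∑ j : Fin 5,
        (if nc S (y 0) (y 1) (y 2) (y 3) = true then (1 : ℝ) else 0) *
          (S.a (y i.castSucc.castSucc) (y 4) : ℝ) * (S.a (y j.castSucc) (y 5) : ℝ) := fun i =>
      sum_comm
    rw [sum_congr rfl fun i _ => h2 i, sum_comm]
    refine sum_le_sum fun y _ => ?_
    have h3 : ∀ i : Fin 4, ∀ j : Fin 5, (0 : ℝ) ≤
        (if nc S (y 0) (y 1) (y 2) (y 3) = true then (1 : ℝ) else 0) *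
          (S.a (y i.castSucc.castSucc) (y 4) : ℝ) * (S.a (y j.castSucc) (y 5) : ℝ) := by
      intro i j
      split_ifs <;> positivity
    by_cases hR : Reach S y
    · rw [if_pos hR]
      obtain ⟨h4, ⟨i, hi⟩, ⟨j, hj⟩⟩ := hR
      refine le_trans ?_ (single_le_sum (f := fun i : Fin 4 => ∑ j : Fin 5,
        (if nc S (y 0) (y 1) (y 2) (y 3) = true then (1 : ℝ) else 0) *
          (S.a (y i.castSucc.castSucc) (y 4) : ℝ) * (S.a (y j.castSucc) (y 5) : ℝ))
        (fun i _ => sum_nonneg fun j _ => h3 i j) (mem_univ i))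
      refine le_trans ?_ (single_le_sum (f := fun j : Fin 5 =>
        (if nc S (y 0) (y 1) (y 2) (y 3) = true then (1 : ℝ) else 0) *
          (S.a (y i.castSucc.castSucc) (y 4) : ℝ) * (S.a (y j.castSucc) (y 5) : ℝ))
        (fun j _ => h3 i j) (mem_univ j))
      rw [if_pos h4]
      unfold Sys.a
      rw [hi, hj]
      norm_num
    · rw [if_neg hR]
      exact sum_nonneg fun i _ => sum_nonneg fun j _ => h3 i j
  refine h1.trans (le_of_eq ?_)
  have h2 : ∀ (i : Fin 4) (j : Fin 5), ∑ y : Fin 6 → V,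
        (if nc S (y 0) (y 1) (y 2) (y 3) = true then (1 : ℝ) else 0) *
          (S.a (y i.castSucc.castSucc) (y 4) : ℝ) * (S.a (y j.castSucc) (y 5) : ℝ) =
      (S.D : ℝ) ^ 2 * NC S := by
    intro i j
    rw [sum_six S (fun a b c d => if nc S a b c d = true then (1 : ℝ) else 0) i j,
      sum_four (fun a b c d => if nc S a b c d = true then (1 : ℝ) else 0)]
    unfold NC
    rw [card_filter]
    push_cast
    rfl
  simp only [h2, sum_const, card_univ, Fintype.card_fin, nsmul_eq_mul]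
  push_cast
  ring

open scoped Classical in
/-- The comparison of two sums over tuples, with a defect. -/
theorem T_le_robust (S : Sys V) (a b : Fin 6) (K L : (Fin 6 → V) → ℤ) (M : ℕ) (l : ℝ)
    (hl : ∀ u v, S.lam u v ≤ l) (hM : ∀ x, K x ≤ L x + M)
    (h : ∀ x, S.q (x 0) (x 1) = true → S.q (x a) (x b) = true →
      K x ≤ L x ∨ ∃ g : Equiv.Perm (Fin 6), Reach S (x ∘ g)) :
    S.T a b (fun x => (K x : ℝ)) ≤ S.T a b (fun x => (L x : ℝ)) +
      M * l ^ 2 * (14400 * (S.D : ℝ) ^ 2 * NC S) := by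
  have hc : ∀ g : Equiv.Perm (Fin 6),
      ((univ.filter (fun x : Fin 6 → V => Reach S (x ∘ g))).card : ℝ) ≤
        20 * (S.D : ℝ) ^ 2 * NC S := by
    intro g
    refine le_trans (le_of_eq ?_) (card_reach S)
    congr 1
    refine card_nbij' (fun x => x ∘ g) (fun x => x ∘ g.symm) ?_ ?_ ?_ ?_
    · intro x hx
      simpa using hx
    · intro x hx
      simp only [coe_filter, mem_univ, true_and, Set.mem_ofPred_eq] at hx ⊢
      have : (x ∘ g.symm) ∘ g = x := by
        funext i
        simp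
      rw [this]
      exact hx
    · intro x _
      funext i
      simp
    · intro x _
      funext i
      simp
  have h1 : S.T a b (fun x => (K x : ℝ)) ≤ S.T a b (fun x => (L x : ℝ)) +
      ∑ x : Fin 6 → V, ∑ g : Equiv.Perm (Fin 6),
        if Reach S (x ∘ g) then M * l ^ 2 else 0 := by
    unfold Sys.T
    rw [← sum_add_distrib]
    refine sum_le_sum fun x _ => ?_
    have hl1 := S.lam_nonneg (x 0) (x 1)
    have hl2 := S.lam_nonneg (x a) (x b)
    have hl3 := hl (x 0) (x 1)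
    have hl4 := hl (x a) (x b)
    have hl0 : 0 ≤ l := hl1.trans hl3
    have h0 : ∀ g : Equiv.Perm (Fin 6), (0 : ℝ) ≤ if Reach S (x ∘ g) then M * l ^ 2 else 0 := by
      intro g
      split_ifs <;> positivity
    have h00 : (0 : ℝ) ≤ ∑ g : Equiv.Perm (Fin 6), if Reach S (x ∘ g) then M * l ^ 2 else 0 :=
      sum_nonneg fun g _ => h0 g
    rcases h5 : S.q (x 0) (x 1) with _ | _
    · rw [S.lam_q _ _ h5]
      simpa using h00
    rcases h6 : S.q (x a) (x b) with _ | _
    · rw [S.lam_q _ _ h6]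
      simpa using h00
    have hll : 0 ≤ S.lam (x 0) (x 1) * S.lam (x a) (x b) := mul_nonneg hl1 hl2
    rcases h x h5 h6 with h7 | ⟨g, hg⟩
    · have h8 : (K x : ℝ) ≤ L x := by exact_mod_cast h7
      have := mul_le_mul_of_nonneg_left h8 hll
      linarith
    · have h8 : (K x : ℝ) ≤ L x + M := by exact_mod_cast hM x
      have h9 := mul_le_mul_of_nonneg_left h8 hll
      have h10 : S.lam (x 0) (x 1) * S.lam (x a) (x b) ≤ l ^ 2 := by
        rw [sq]
        exact mul_le_mul hl3 hl4 hl2 hl0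
      have h11 : S.lam (x 0) (x 1) * S.lam (x a) (x b) * M ≤ M * l ^ 2 := by
        rw [mul_comm (M : ℝ)]
        exact mul_le_mul_of_nonneg_right h10 (Nat.cast_nonneg _)
      have h12 := single_le_sum (f := fun g : Equiv.Perm (Fin 6) =>
        if Reach S (x ∘ g) then M * l ^ 2 else 0) (fun g _ => h0 g) (mem_univ g)
      simp only [if_pos hg] at h12
      rw [mul_add] at h9
      linarith
  refine h1.trans (add_le_add le_rfl ?_)
  rw [sum_comm]
  have h2 : ∀ g : Equiv.Perm (Fin 6), ∑ x : Fin 6 → V,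
      (if Reach S (x ∘ g) then M * l ^ 2 else 0) ≤ M * l ^ 2 * (20 * (S.D : ℝ) ^ 2 * NC S) := by
    intro g
    rw [← sum_filter, sum_const, nsmul_eq_mul, mul_comm]
    exact mul_le_mul_of_nonneg_left (hc g) (by positivity)
  refine (sum_le_sum fun g _ => h2 g).trans (le_of_eq ?_)
  rw [sum_const, card_univ, Fintype.card_perm, Fintype.card_fin, nsmul_eq_mul]
  have : ((Nat.factorial 6 : ℕ) : ℝ) = 720 := by norm_num [Nat.factorial]
  rw [this]
  ring

/-- The tuple is connected. -/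
def Conn (S : Sys V) (x : Fin 6 → V) : Prop :=
  ∀ P : Finset (Fin 6), P.Nonempty → P ≠ univ → ∃ i ∈ P, ∃ j, j ∉ P ∧ S.adj (x i) (x j) = true

/-- All pairs of edges of the system inside the tuple conflict. -/
def Good (S : Sys V) (x : Fin 6 → V) : Prop :=
  ∀ i j k l : Fin 6, S.q (x i) (x j) = true → S.q (x k) (x l) = true →
    cf S (x i) (x j) (x k) (x l) = true

theorem reach_of_conn (S : Sys V) {x : Fin 6 → V} (hc : Conn S x) (hb : ¬ Good S x) :
    ∃ g : Equiv.Perm (Fin 6), Reach S (x ∘ g) := by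
  classical
  unfold Good at hb
  push Not at hb
  obtain ⟨i, j, k, l, h1, h2, h3⟩ := hb
  have h3' : cf S (x i) (x j) (x k) (x l) = false := by simpa using h3
  have ha1 := S.q_adj _ _ h1
  have ha2 := S.q_adj _ _ h2
  unfold cf at h3'
  simp only [Bool.or_eq_false_iff] at h3'
  obtain ⟨⟨⟨c1, c2⟩, c3⟩, c4⟩ := h3'
  have hne : ∀ p q : Fin 6, S.adj (x p) (x q) = true → p ≠ q := by
    intro p q h hpq
    rw [hpq, S.adj_irr] at h
    exact absurd h (by simp)
  have hij := hne _ _ ha1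
  have hkl := hne _ _ ha2
  have hik : i ≠ k := by
    rintro rfl
    rw [ha2] at c2
    exact absurd c2 (by simp)
  have hil : i ≠ l := by
    rintro rfl
    rw [S.adj_symm, ha2] at c1
    exact absurd c1 (by simp)
  have hjk : j ≠ k := by
    rintro rfl
    rw [ha2] at c4
    exact absurd c4 (by simp)
  have hjl : j ≠ l := by
    rintro rfl
    rw [S.adj_symm, ha2] at c3
    exact absurd c3 (by simp)
  have hP : ({i, j, k, l} : Finset (Fin 6)) ≠ univ := by
    intro h
    have h4 := congrArg card h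
    have h5 : ({i, j, k, l} : Finset (Fin 6)).card ≤ 4 := card_le_four
    rw [h4, card_univ, Fintype.card_fin] at h5
    omega
  obtain ⟨p', hp', p, hp, hpa⟩ := hc {i, j, k, l} ⟨i, by simp⟩ hP
  have hP2 : (insert p {i, j, k, l} : Finset (Fin 6)) ≠ univ := by
    intro h
    have h4 := congrArg card h
    have h5 : (insert p {i, j, k, l} : Finset (Fin 6)).card ≤ 5 :=
      (card_insert_le _ _).trans (Nat.succ_le_succ card_le_four)
    rw [h4, card_univ, Fintype.card_fin] at h5
    omega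
  obtain ⟨r', hr', r, hr, hra⟩ := hc (insert p {i, j, k, l}) ⟨i, by simp⟩ hP2
  simp only [mem_insert, mem_singleton, not_or] at hp' hp hr' hr
  have hinj : Function.Injective (![i, j, k, l, p, r] : Fin 6 → Fin 6) := by
    intro a b hab
    fin_cases a <;> fin_cases b <;> simp at hab ⊢ <;> first
      | exact absurd hab hij | exact absurd hab hik | exact absurd hab hil
      | exact absurd hab hjk | exact absurd hab hjl | exact absurd hab hkl
      | exact absurd hab.symm hij | exact absurd hab.symm hik | exact absurd hab.symm hil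
      | exact absurd hab.symm hjk | exact absurd hab.symm hjl | exact absurd hab.symm hkl
      | exact absurd hab hp.1 | exact absurd hab hp.2.1 | exact absurd hab hp.2.2.1
      | exact absurd hab hp.2.2.2
      | exact absurd hab.symm hp.1 | exact absurd hab.symm hp.2.1
      | exact absurd hab.symm hp.2.2.1 | exact absurd hab.symm hp.2.2.2
      | exact absurd hab hr.1 | exact absurd hab hr.2.1 | exact absurd hab hr.2.2.1
      | exact absurd hab hr.2.2.2.1 | exact absurd hab hr.2.2.2.2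
      | exact absurd hab.symm hr.1 | exact absurd hab.symm hr.2.1
      | exact absurd hab.symm hr.2.2.1 | exact absurd hab.symm hr.2.2.2.1
      | exact absurd hab.symm hr.2.2.2.2
  refine ⟨Equiv.ofBijective _ (Finite.injective_iff_bijective.1 hinj), ?_, ?_, ?_⟩
  · show nc S (x i) (x j) (x k) (x l) = true
    unfold nc cf
    rw [h1, h2, c1, c2, c3, c4]
    rfl
  · rcases hp' with rfl | rfl | rfl | rfl
    · exact ⟨0, hpa⟩
    · exact ⟨1, hpa⟩
    · exact ⟨2, hpa⟩
    · exact ⟨3, hpa⟩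
  · rcases hr' with rfl | rfl | rfl | rfl | rfl
    · exact ⟨4, hra⟩
    · exact ⟨0, hra⟩
    · exact ⟨1, hra⟩
    · exact ⟨2, hra⟩
    · exact ⟨3, hra⟩

theorem reach_of_dd (S : Sys V) {x : Fin 6 → V} (h01 : S.q (x 0) (x 1) = true)
    (h23 : S.q (x 2) (x 3) = true) (hdd : S.dg4 x 4 * S.dg4 x 5 ≠ 0) (hc : ¬ Conn S x) :
    ∃ g : Equiv.Perm (Fin 6), Reach S (x ∘ g) := by
  have hk : ∀ k : Fin 6, S.dg4 x k ≠ 0 → ∃ i : Fin 4, S.adj (x i.castSucc.castSucc) (x k) = true := by
    intro k hk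
    by_contra hno
    push Not at hno
    apply hk
    unfold Sys.dg4 Sys.a
    have e0 : S.adj (x 0) (x k) = false := by simpa using hno 0
    have e1 : S.adj (x 1) (x k) = false := by simpa using hno 1
    have e2 : S.adj (x 2) (x k) = false := by simpa using hno 2
    have e3 : S.adj (x 3) (x k) = false := by simpa using hno 3
    rw [e0, e1, e2, e3]
    rfl
  obtain ⟨i4, h4⟩ := hk 4 (fun h => hdd (by rw [h, Nat.zero_mul]))
  obtain ⟨i5, h5⟩ := hk 5 (fun h => hdd (by rw [h, Nat.mul_zero]))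
  rcases h6 : cf S (x 0) (x 1) (x 2) (x 3) with _ | _
  · refine ⟨1, ?_, ⟨i4, h4⟩, ⟨i5.castSucc, h5⟩⟩
    show nc S (x 0) (x 1) (x 2) (x 3) = true
    unfold nc
    rw [h01, h23, h6]
    rfl
  · exfalso
    apply hc
    intro P hP hP2
    by_contra hno
    push Not at hno
    have hcross : ∀ i j : Fin 6, S.adj (x i) (x j) = true → (i ∈ P ↔ j ∈ P) := by
      intro i j hij
      constructor
      · intro hi
        by_contra hj
        exact hno i hi j hj hij
      · intro hj
        by_contra hi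
        exact hno j hj i hi (by rw [S.adj_symm]; exact hij)
    have e1 := hcross 0 1 (S.q_adj _ _ h01)
    have e2 := hcross 2 3 (S.q_adj _ _ h23)
    have e3 : (0 ∈ P ↔ 2 ∈ P) := by
      unfold cf at h6
      simp only [Bool.or_eq_true] at h6
      rcases h6 with ((h | h) | h) | h
      · exact hcross _ _ h
      · exact (hcross _ _ h).trans e2.symm
      · exact e1.trans (hcross _ _ h)
      · exact e1.trans ((hcross _ _ h).trans e2.symm)
    have e4 : ∀ i : Fin 4, (i.castSucc.castSucc ∈ P ↔ (0 : Fin 6) ∈ P) := by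
      intro i
      fin_cases i
      · exact Iff.rfl
      · exact e1.symm
      · exact e3.symm
      · exact (e3.trans e2).symm
    have e5 : (4 ∈ P ↔ (0 : Fin 6) ∈ P) := (hcross _ _ h4).symm.trans (e4 i4)
    have e6 : (5 ∈ P ↔ (0 : Fin 6) ∈ P) := (hcross _ _ h5).symm.trans (e4 i5)
    have e7 : ∀ i : Fin 6, (i ∈ P ↔ (0 : Fin 6) ∈ P) := by
      intro i
      fin_cases i
      · exact Iff.rfl
      · exact e1.symm
      · exact e3.symm
      · exact (e3.trans e2).symm
      · exact e5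
      · exact e6
    obtain ⟨i, hi⟩ := hP
    apply hP2
    ext j
    simp only [mem_univ, iff_true]
    exact (e7 j).2 ((e7 i).1 hi)

/-- The inequalities for good tuples give the inequality with a defect. -/
theorem main_robust (S : Sys V) (hD : 1 ≤ S.D) (τ : Tab) (N : ℕ) (hN : 0 < N)
    (ωC ωB ωA : (Fin 5 → V) → Fin 5 → ℤ) (hωC : ∀ y, ∑ z : Fin 5, ωC y z = 0)
    (hωB : ∀ y, ∑ z : Fin 5, ωB y z = 0) (hωA : ∀ y, ∑ z : Fin 5, ωA y z = 0)
    (hC : ∀ x, S.q (x 0) (x 1) = true → S.q (x 2) (x 3) = true → Good S x →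
      S.KS τ plCA plCC x + S.RR ωC gC x + 8 * N * (S.dg4 x 4 * S.dg4 x 5 : ℕ) ≤ 0)
    (hB : ∀ x, S.q (x 0) (x 1) = true → S.q (x 0) (x 2) = true → Good S x →
      S.KS τ plBA plBC x + S.RR ωB gB x ≤ 0)
    (hA : ∀ x, S.q (x 0) (x 1) = true → S.q (x 0) (x 1) = true → Good S x →
      S.KS τ plAA plAC x + S.RR ωA gA x ≤ 16 * N * (S.oA x : ℕ))
    (hC' : ∀ x, S.q (x 0) (x 1) = true → S.q (x 2) (x 3) = true → ¬ Conn S x →
      S.KS τ plCA plCC x + S.RR ωC gC x ≤ 0)
    (hB' : ∀ x, S.q (x 0) (x 1) = true → S.q (x 0) (x 2) = true → ¬ Conn S x →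
      S.KS τ plBA plBC x + S.RR ωB gB x ≤ 0)
    (hA' : ∀ x, S.q (x 0) (x 1) = true → S.q (x 0) (x 1) = true → ¬ Conn S x →
      S.KS τ plAA plAC x + S.RR ωA gA x ≤ 0)
    (M : ℕ) (hMC : ∀ x, S.KS τ plCA plCC x + S.RR ωC gC x +
      8 * N * (S.dg4 x 4 * S.dg4 x 5 : ℕ) ≤ M)
    (hMB : ∀ x, S.KS τ plBA plBC x + S.RR ωB gB x ≤ M)
    (hMA : ∀ x, S.KS τ plAA plAC x + S.RR ωA gA x ≤ M)
    (l : ℝ) (hl : ∀ u v, S.lam u v ≤ l) :
    (∑ u, ∑ v, S.lam u v) ^ 2 ≤ ∑ a, ∑ b, S.lam a b ^ 2 *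
      ((S.D : ℝ) ^ 2 + 2 * S.D * ∑ u, ((S.a a u * S.a b u : ℕ) : ℝ) +
        ∑ u, ∑ v, ((S.uu a b u * S.uu a b v * S.a u v : ℕ) : ℝ)) + 300 * M * l ^ 2 * NC S := by
  have h0 := S.sos_decomp τ
  have c1 := S.T_RR 2 3 (by decide) (by decide) ωC hωC gC gC_ok
  have b1 := S.T_RR 0 2 (by decide) (by decide) ωB hωB gB gB_ok
  have a1 := S.T_RR 0 1 (by decide) (by decide) ωA hωA gA gA_ok
  have c2 := T_le_robust S 2 3 (fun x => S.KS τ plCA plCC x)
    (fun x => -(S.RR ωC gC x) - 8 * N * (S.dg4 x 4 * S.dg4 x 5 : ℕ)) M l hl (fun x => by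
      have := hMC x
      linarith) (fun x h1 h2 => by
      by_cases hg : Good S x
      · left
        have := hC x h1 h2 hg
        linarith
      · by_cases hcn : Conn S x
        · exact Or.inr (reach_of_conn S hcn hg)
        · by_cases hdd : S.dg4 x 4 * S.dg4 x 5 = 0
          · left
            have := hC' x h1 h2 hcn
            rw [hdd]
            push_cast
            linarith
          · exact Or.inr (reach_of_dd S h1 h2 hdd hcn))
  have b2 := T_le_robust S 0 2 (fun x => S.KS τ plBA plBC x)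
    (fun x => -(S.RR ωB gB x)) M l hl (fun x => by
      have := hMB x
      linarith) (fun x h1 h2 => by
      by_cases hg : Good S x
      · left
        have := hB x h1 h2 hg
        linarith
      · by_cases hcn : Conn S x
        · exact Or.inr (reach_of_conn S hcn hg)
        · left
          have := hB' x h1 h2 hcn
          linarith)
  have a2 := T_le_robust S 0 1 (fun x => S.KS τ plAA plAC x)
    (fun x => 16 * N * (S.oA x : ℕ) - S.RR ωA gA x) M l hl (fun x => by
      have := hMA x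
      have h3 : (0 : ℤ) ≤ 16 * N * (S.oA x : ℕ) := by positivity
      linarith) (fun x h1 h2 => by
      have h3 : (0 : ℤ) ≤ 16 * N * (S.oA x : ℕ) := by positivity
      by_cases hg : Good S x
      · left
        have := hA x h1 h2 hg
        linarith
      · by_cases hcn : Conn S x
        · exact Or.inr (reach_of_conn S hcn hg)
        · left
          have := hA' x h1 h2 hcn
          linarith)
  have c3 : S.T 2 3 (fun x => ((-(S.RR ωC gC x) - 8 * N * (S.dg4 x 4 * S.dg4 x 5 : ℕ) : ℤ) : ℝ))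
      = -(8 * N * (16 * (S.D : ℝ) ^ 2 * (∑ u, ∑ v, S.lam u v) ^ 2)) := by
    rw [← S.T_dd, ← S.T_mul]
    have : (fun x : Fin 6 → V => ((-(S.RR ωC gC x) - 8 * N * (S.dg4 x 4 * S.dg4 x 5 : ℕ) : ℤ) : ℝ))
        = fun x => (-1 : ℝ) * (S.RR ωC gC x : ℝ) -
          8 * N * ((S.dg4 x 4 * S.dg4 x 5 : ℕ) : ℝ) := by
      funext x; push_cast; ring
    rw [this, S.T_sub, S.T_mul, c1]
    ring
  have b3 : S.T 0 2 (fun x => ((-(S.RR ωB gB x) : ℤ) : ℝ)) = 0 := by
    have : (fun x : Fin 6 → V => ((-(S.RR ωB gB x) : ℤ) : ℝ))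
        = fun x => (-1 : ℝ) * (S.RR ωB gB x : ℝ) := by
      funext x; push_cast; ring
    rw [this, S.T_mul, b1]
    ring
  have a3 : S.T 0 1 (fun x => ((16 * N * (S.oA x : ℕ) - S.RR ωA gA x : ℤ) : ℝ))
      = 16 * N * S.T 0 1 (fun x => (S.oA x : ℝ)) := by
    rw [← S.T_mul]
    have : (fun x : Fin 6 → V => ((16 * N * (S.oA x : ℕ) - S.RR ωA gA x : ℤ) : ℝ))
        = fun x => 16 * N * (S.oA x : ℝ) - (S.RR ωA gA x : ℝ) := by
      funext x; push_cast; ring
    rw [this, S.T_sub, a1]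
    ring
  rw [c3] at c2
  rw [b3] at b2
  rw [a3, S.T_oA] at a2
  have hNr : (1 : ℝ) ≤ N := by exact_mod_cast hN
  have hDr : (0 : ℝ) < (S.D : ℝ) := by exact_mod_cast hD
  have hpos : 0 < 16 * 48 * (N : ℝ) * (S.D : ℝ) ^ 2 := by positivity
  refine le_of_mul_le_mul_left ?_ hpos
  have hE : (0 : ℝ) ≤ M * l ^ 2 * ((S.D : ℝ) ^ 2 * NC S) := by positivity
  have hE2 : (M * l ^ 2 * ((S.D : ℝ) ^ 2 * NC S)) * 1 ≤
      (M * l ^ 2 * ((S.D : ℝ) ^ 2 * NC S)) * N := mul_le_mul_of_nonneg_left hNr hE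
  nlinarith [h0, c2, b2, a2, hE, hE2]

end Pool.Agent.Helper60.SL
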