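import Pool.Agent.Helper60.SL.FromSys
import Pool.Agent.Helper60.SL.Robust

/-!
# From weighted systems to the quadratic form inequality with a defect
-/

set_option autoImplicit false

namespace Pool.Agent.Helper60.SL

open Finset Pool.Agent.Helper96.FC
open scoped Classical

theorem NC_sysOf {W : Type} [Fintype W] (H : SimpleGraph W) (D : ℕ)
    (hreg : ∀ x, dg H x = D) (lam : W → W → ℝ) (h0 : ∀ x y, 0 ≤ lam x y)
    (hs : ∀ x y, lam x y = lam y x) (ha : ∀ x y, lam x y ≠ 0 → H.Adj x y) :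
    (NC (sysOf H D hreg lam h0 hs ha) : ℝ) =
      ∑ x, ∑ y, ∑ u, ∑ v, (if lam x y ≠ 0 ∧ lam u v ≠ 0 ∧
        ¬ (H.Adj x u ∨ H.Adj x v ∨ H.Adj y u ∨ H.Adj y v) then (1 : ℝ) else 0) := by
  unfold NC
  rw [card_filter]
  push_cast
  rw [Fintype.sum_prod_type]
  refine sum_congr rfl fun x _ => ?_
  rw [Fintype.sum_prod_type]
  refine sum_congr rfl fun y _ => ?_
  rw [Fintype.sum_prod_type]
  refine sum_congr rfl fun u _ => sum_congr rfl fun v _ => ?_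
  refine if_congr ?_ rfl rfl
  show (decide (lam x y ≠ 0) && decide (lam u v ≠ 0) &&
    !(decide (H.Adj x u) || decide (H.Adj x v) || decide (H.Adj y u) || decide (H.Adj y v))) = true
    ↔ _
  simp only [Bool.and_eq_true, Bool.not_eq_true', Bool.or_eq_false_iff, decide_eq_true_eq,
    decide_eq_false_iff_not, not_or]
  tauto

/-- The inequality of the systems gives the quadratic form inequality with a defect. -/
theorem robust_of_sys (C0 : ℝ) (hmain : ∀ (W : Type) [Fintype W] (S : Sys W) (l : ℝ), 1 ≤ S.D →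
      (∀ u v, S.lam u v ≤ l) →
      (∑ u, ∑ v, S.lam u v) ^ 2 ≤ ∑ a, ∑ b, S.lam a b ^ 2 *
        ((S.D : ℝ) ^ 2 + 2 * S.D * ∑ u, ((S.a a u * S.a b u : ℕ) : ℝ) +
          ∑ u, ∑ v, ((S.uu a b u * S.uu a b v * S.a u v : ℕ) : ℝ)) + C0 * l ^ 2 * NC S)
    {W : Type} [Fintype W] (H : SimpleGraph W) (D : ℕ) (hD : 1 ≤ D)
    (hreg : ∀ x, dg H x = D) (lam : W → W → ℝ) (l : ℝ) (h0 : ∀ x y, 0 ≤ lam x y)
    (hl : ∀ x y, lam x y ≤ l)
    (hs : ∀ x y, lam x y = lam y x) (ha : ∀ x y, lam x y ≠ 0 → H.Adj x y) :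
    (∑ x, ∑ y, lam x y) ^ 2 ≤ 2 * ∑ x, ∑ y, lam x y ^ 2 * F H (5 / 4) D x y +
      C0 * l ^ 2 * ∑ x, ∑ y, ∑ u, ∑ v, (if lam x y ≠ 0 ∧ lam u v ≠ 0 ∧
        ¬ (H.Adj x u ∨ H.Adj x v ∨ H.Adj y u ∨ H.Adj y v) then (1 : ℝ) else 0) := by
  have h1 := hmain W (sysOf H D hreg lam h0 hs ha) l hD hl
  rw [NC_sysOf H D hreg lam h0 hs ha] at h1
  refine le_trans h1 (le_of_eq ?_)
  congr 1
  rw [mul_sum]
  refine sum_congr rfl fun a _ => ?_
  rw [mul_sum]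
  refine sum_congr rfl fun b _ => ?_
  rw [obj_eq]
  show lam a b ^ 2 * (2 * F H (5 / 4) D a b) = 2 * (lam a b ^ 2 * F H (5 / 4) D a b)
  ring

/-- The exact inequality follows from the one with a defect. -/
theorem QF_of_robust {C0 : ℝ} {W : Type} [Fintype W] (H : SimpleGraph W) (c : ℝ) (D : ℕ)
    (h : ∀ (lam : W → W → ℝ) (l : ℝ), (∀ x y, 0 ≤ lam x y) → (∀ x y, lam x y ≤ l) →
      (∀ x y, lam x y = lam y x) → (∀ x y, lam x y ≠ 0 → H.Adj x y) →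
      (∑ x, ∑ y, lam x y) ^ 2 ≤ 2 * ∑ x, ∑ y, lam x y ^ 2 * F H c D x y +
      C0 * l ^ 2 * ∑ x, ∑ y, ∑ u, ∑ v, (if lam x y ≠ 0 ∧ lam u v ≠ 0 ∧
        ¬ (H.Adj x u ∨ H.Adj x v ∨ H.Adj y u ∨ H.Adj y v) then (1 : ℝ) else 0)) :
    QF H c D := by
  intro lam h0 hs ha hcl
  have h1 := h lam (∑ x, ∑ y, lam x y) h0 (fun x y => by
    refine le_trans ?_ (single_le_sum (f := fun x => ∑ y, lam x y)
      (fun x _ => sum_nonneg fun y _ => h0 x y) (mem_univ x))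
    exact single_le_sum (f := fun y => lam x y) (fun y _ => h0 x y) (mem_univ y)) hs ha
  have h2 : ∑ x, ∑ y, ∑ u, ∑ v, (if lam x y ≠ 0 ∧ lam u v ≠ 0 ∧
        ¬ (H.Adj x u ∨ H.Adj x v ∨ H.Adj y u ∨ H.Adj y v) then (1 : ℝ) else 0) = 0 := by
    refine sum_eq_zero fun x _ => sum_eq_zero fun y _ => sum_eq_zero fun u _ =>
      sum_eq_zero fun v _ => if_neg ?_
    rintro ⟨h3, h4, h5⟩
    exact h5 (hcl x y u v h3 h4)
  rw [h2, mul_zero, add_zero] at h1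
  exact h1

end Pool.Agent.Helper60.SL
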