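import Mathlib

/-!
# Embedding a graph of maximum degree at most `D` in a `D`-regular graph
-/

set_option autoImplicit false

namespace Pool.Agent.Helper60.SL

open Finset
open scoped Classical

/-- The degree. -/
noncomputable def dg {V : Type} [Fintype V] (G : SimpleGraph V) (x : V) : ℕ :=
  (univ.filter (fun y => G.Adj x y)).card

/-- Triangle-free. -/
def TF {V : Type} (G : SimpleGraph V) : Prop := ∀ x y z, G.Adj x y → G.Adj y z → ¬ G.Adj x z

/-- Two copies of `G`; the two copies of a vertex of degree less than `D` are joined. -/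
def dbl {V : Type} [Fintype V] (G : SimpleGraph V) (D : ℕ) : SimpleGraph (V × Bool) where
  Adj a b := (a.2 = b.2 ∧ G.Adj a.1 b.1) ∨ (a.2 ≠ b.2 ∧ a.1 = b.1 ∧ dg G a.1 < D)
  symm := ⟨by
    rintro a b (⟨h1, h2⟩ | ⟨h1, h2, h3⟩)
    · exact Or.inl ⟨h1.symm, h2.symm⟩
    · exact Or.inr ⟨h1.symm, h2.symm, h2 ▸ h3⟩⟩
  loopless := ⟨by
    rintro a (⟨_, h2⟩ | ⟨h1, _⟩)
    · exact G.loopless.irrefl _ h2
    · exact h1 rfl⟩

theorem dg_dbl {V : Type} [Fintype V] (G : SimpleGraph V) (D : ℕ) (x : V) (i : Bool) :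
    dg (dbl G D) (x, i) = dg G x + if dg G x < D then 1 else 0 := by
  unfold dg
  have h1 : univ.filter (fun b : V × Bool => (dbl G D).Adj (x, i) b) =
      (univ.filter (fun y => G.Adj x y)).image (fun y => (y, i)) ∪
        (if dg G x < D then {(x, !i)} else ∅) := by
    ext ⟨y, j⟩
    simp only [mem_filter, mem_univ, true_and, mem_union, mem_image, Prod.mk.injEq]
    constructor
    · rintro (⟨h1, h2⟩ | ⟨h1, h2, h3⟩)
      · exact Or.inl ⟨y, h2, rfl, h1⟩
      · right
        simp only at h1 h2 h3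
        rw [if_pos h3, mem_singleton, Prod.mk.injEq]
        refine ⟨h2.symm, ?_⟩
        cases i <;> cases j <;> simp_all
    · rintro (⟨z, h1, h2, h3⟩ | h)
      · exact Or.inl ⟨h3, h2 ▸ h1⟩
      · split_ifs at h with h3
        · rw [mem_singleton, Prod.mk.injEq] at h
          refine Or.inr ⟨?_, h.1.symm, h3⟩
          simp only [h.2]
          cases i <;> simp
        · exact absurd h (notMem_empty _)
  rw [h1, card_union_of_disjoint, card_image_of_injective]
  · congr 1
    change (if dg G x < D then ({(x, !i)} : Finset (V × Bool)) else ∅).card =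
      if dg G x < D then 1 else 0
    split_ifs
    · exact card_singleton _
    · rfl
  · intro a b h
    exact (Prod.mk.injEq _ _ _ _ ▸ h).1
  · rw [disjoint_left]
    intro a ha hb
    obtain ⟨y, _, rfl⟩ := mem_image.1 ha
    split_ifs at hb
    · rw [mem_singleton, Prod.mk.injEq] at hb
      have := hb.2
      cases i <;> simp at this
    · exact absurd hb (notMem_empty _)

theorem tf_dbl {V : Type} [Fintype V] (G : SimpleGraph V) (D : ℕ) (h : TF G) : TF (dbl G D) := by
  rintro x y z (⟨h1, h2⟩ | ⟨h1, h2, h3⟩) (⟨k1, k2⟩ | ⟨k1, k2, k3⟩) (⟨l1, l2⟩ | ⟨l1, l2, l3⟩)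
  · exact h _ _ _ h2 k2 l2
  · exact l1 (h1.trans k1)
  · exact k1 (h1.symm.trans l1)
  · rw [l2, ← k2] at h2
    exact G.loopless.irrefl _ h2
  · exact h1 (l1.trans k1.symm)
  · rw [← l2, ← h2] at k2
    exact G.loopless.irrefl _ k2
  · rw [h2, ← k2] at l2
    exact G.loopless.irrefl _ l2
  · revert h1 k1 l1
    cases x.2 <;> cases y.2 <;> cases z.2 <;> simp

theorem exists_regular (D : ℕ) : ∀ (k : ℕ) (V : Type) [Fintype V] (G : SimpleGraph V),
    (∀ x, dg G x ≤ D) → (∀ x, D ≤ dg G x + k) →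
    ∃ (W : Type) (_ : Fintype W) (H : SimpleGraph W) (φ : V → W), (∀ x, dg H x = D) ∧
      Function.Injective φ ∧ (∀ x y, G.Adj x y → H.Adj (φ x) (φ y)) ∧ (TF G → TF H) := by
  intro k
  induction k with
  | zero =>
    intro V _ G h1 h2
    exact ⟨V, inferInstance, G, id, fun x => le_antisymm (h1 x) (h2 x), Function.injective_id,
      fun _ _ h => h, id⟩
  | succ k ih =>
    intro V _ G h1 h2
    obtain ⟨W, fW, H, φ, hH, hφ, hadj, htf⟩ := ih (V × Bool) (dbl G D)
      (by
        rintro ⟨x, i⟩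
        rw [dg_dbl]
        have := h1 x
        split_ifs <;> omega)
      (by
        rintro ⟨x, i⟩
        rw [dg_dbl]
        have := h1 x
        have := h2 x
        split_ifs <;> omega)
    refine ⟨W, fW, H, fun x => φ (x, true), hH, ?_, ?_, fun h => htf (tf_dbl G D h)⟩
    · intro a b h
      exact congrArg Prod.fst (hφ h)
    · intro x y h
      exact hadj _ _ (Or.inl ⟨rfl, h⟩)

end Pool.Agent.Helper60.SL
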