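import Pool.Agent.Helper60.SL.Reed
import Pool.Agent.Helper60.SL.Regular

/-!
# From an inequality on strong cliques of regular graphs to the fractional strong chromatic index
-/

set_option autoImplicit false

namespace Pool.Agent.Helper60.SL

open Finset
open scoped Classical

/-- `M` is an induced matching of `G`. -/
def IsInducedMatching {V : Type} (G : SimpleGraph V) (M : Finset (Sym2 V)) : Prop :=
  (∀ e ∈ M, e ∈ G.edgeSet) ∧
    ∀ e ∈ M, ∀ f ∈ M, e ≠ f → ∀ u ∈ e, ∀ v ∈ f, u ≠ v ∧ ¬ G.Adj u v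

/-- The fractional strong chromatic index of `G` is at most `R`. -/
def FracStrongIndexLE {V : Type} [Fintype V] (G : SimpleGraph V) (R : ℝ) : Prop :=
  ∃ p : Finset (Sym2 V) → ℝ, (∀ M, 0 ≤ p M) ∧ (∀ M, p M ≠ 0 → IsInducedMatching G M) ∧
    ∑ M, p M ≤ R ∧ ∀ e ∈ G.edgeSet, 1 ≤ ∑ M ∈ univ.filter (fun M => e ∈ M), p M

theorem of_family {V : Type} [Fintype V] {G : SimpleGraph V} {R : ℝ} {I : Type} [Fintype I]
    (q : I → ℝ) (M : I → Finset (Sym2 V)) (hq : ∀ i, 0 ≤ q i)
    (hM : ∀ i, q i ≠ 0 → IsInducedMatching G (M i)) (hR : ∑ i, q i ≤ R)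
    (hcov : ∀ e ∈ G.edgeSet, 1 ≤ ∑ i, if e ∈ M i then q i else 0) :
    FracStrongIndexLE G R := by
  refine ⟨fun N => ∑ i ∈ univ.filter (fun i => M i = N), q i, ?_, ?_, ?_, ?_⟩
  · intro N
    exact Finset.sum_nonneg (fun i _ => hq i)
  · intro N hN
    obtain ⟨i, hi, hi2⟩ := Finset.exists_ne_zero_of_sum_ne_zero hN
    rw [← (mem_filter.1 hi).2]
    exact hM i hi2
  · rw [Finset.sum_fiberwise]
    exact hR
  · intro e he
    refine (hcov e he).trans (le_of_eq ?_)
    rw [← Finset.sum_filter]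
    rw [← Finset.sum_fiberwise_of_maps_to (s := univ.filter (fun i => e ∈ M i))
      (t := univ.filter (fun N => e ∈ N)) (g := M)]
    · refine Finset.sum_congr rfl (fun N hN => ?_)
      refine Finset.sum_congr ?_ (fun _ _ => rfl)
      ext i
      simp only [mem_filter, mem_univ, true_and] at hN ⊢
      constructor
      · rintro ⟨_, h⟩
        exact h
      · intro h
        exact ⟨by rw [h]; exact hN, h⟩
    · intro i hi
      simpa using hi

/-- The bound passes to graphs which map injectively into `H`. -/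
theorem frac_mono {V W : Type} [Fintype V] [Fintype W] {G : SimpleGraph V} {H : SimpleGraph W}
    {φ : V → W} (hφ : Function.Injective φ) (hadj : ∀ x y, G.Adj x y → H.Adj (φ x) (φ y)) {R : ℝ}
    (h : FracStrongIndexLE H R) : FracStrongIndexLE G R := by
  obtain ⟨p, hp0, hpM, hpR, hpc⟩ := h
  refine of_family p (fun M => univ.filter (fun e => e ∈ G.edgeSet ∧ Sym2.map φ e ∈ M)) hp0 ?_
    hpR ?_
  · intro M hM
    obtain ⟨_, h2⟩ := hpM M hM
    refine ⟨fun e he => (mem_filter.1 he).2.1, ?_⟩
    intro e he f hf hne u hu v hv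
    have h3 := h2 _ (mem_filter.1 he).2.2 _ (mem_filter.1 hf).2.2
      (fun hc => hne (Sym2.map.injective hφ hc)) (φ u) (Sym2.mem_map.2 ⟨u, hu, rfl⟩) (φ v)
      (Sym2.mem_map.2 ⟨v, hv, rfl⟩)
    exact ⟨fun hc => h3.1 (congrArg φ hc), fun hc => h3.2 (hadj _ _ hc)⟩
  · intro e he
    have he' : Sym2.map φ e ∈ H.edgeSet := by
      induction e using Sym2.ind with
      | _ x y =>
        rw [Sym2.map_mk]
        exact hadj x y he
    refine (hpc _ he').trans (le_of_eq ?_)
    rw [sum_filter]
    refine sum_congr rfl fun M _ => ?_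
    have : (e ∈ univ.filter (fun e => e ∈ G.edgeSet ∧ Sym2.map φ e ∈ M)) ↔
        Sym2.map φ e ∈ M := by
      rw [mem_filter]
      exact ⟨fun h => h.2.2, fun h => ⟨mem_univ _, he, h⟩⟩
    simp only [this]

section

variable {V : Type} [Fintype V] (G : SimpleGraph V)

/-- Neighbours. -/
noncomputable def nb (x : V) : Finset V := univ.filter (fun y => G.Adj x y)

/-- The union of the neighbourhoods of the ends of an edge. -/
noncomputable def un (x y : V) : Finset V := nb G x ∪ nb G y

/-- Ordered pairs of adjacent vertices inside the union of the neighbourhoods. -/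
noncomputable def inn (x y : V) : Finset (V × V) :=
  univ.filter (fun p => G.Adj p.1 p.2 ∧ p.1 ∈ un G x y ∧ p.2 ∈ un G x y)

/-- `2 c D^2` minus the number of edges meeting the union of the two neighbourhoods. -/
noncomputable def F (c : ℝ) (D : ℕ) (x y : V) : ℝ :=
  2 * c * (D : ℝ) ^ 2 - ((un G x y).card : ℝ) * D + ((inn G x y).card : ℝ) / 2

variable {G}

theorem mem_nb {x y : V} : y ∈ nb G x ↔ G.Adj x y := by
  unfold nb
  rw [mem_filter]
  exact and_iff_right (mem_univ _)

theorem mem_un {x y z : V} : z ∈ un G x y ↔ G.Adj x z ∨ G.Adj y z := by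
  unfold un
  rw [mem_union, mem_nb, mem_nb]

theorem un_comm (x y : V) : un G x y = un G y x := by
  unfold un
  rw [union_comm]

theorem F_comm (c : ℝ) (D : ℕ) (x y : V) : F G c D x y = F G c D y x := by
  unfold F inn
  simp only [un_comm x y]

theorem card_un_le {D : ℕ} (hreg : ∀ x, dg G x = D) (x y : V) : (un G x y).card ≤ 2 * D := by
  unfold un
  refine (card_union_le _ _).trans ?_
  have h1 : (nb G x).card = D := hreg x
  have h2 : (nb G y).card = D := hreg y
  omega

/-- Two edges conflict if they share an endpoint or are joined by an edge. -/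
def Cf (G : SimpleGraph V) (e g : {e : Sym2 V // e ∈ G.edgeSet}) : Prop :=
  ∃ u ∈ e.1, ∃ v ∈ g.1, u = v ∨ G.Adj u v

omit [Fintype V] in
theorem Cf_symm {e g : {e : Sym2 V // e ∈ G.edgeSet}} (h : Cf G e g) : Cf G g e := by
  obtain ⟨u, hu, v, hv, h⟩ := h
  exact ⟨v, hv, u, hu, h.elim (fun h => Or.inl h.symm) (fun h => Or.inr h.symm)⟩

/-- Ordered pairs of adjacent vertices meeting the union of the neighbourhoods. -/
noncomputable def out (G : SimpleGraph V) (x y : V) : Finset (V × V) :=
  univ.filter (fun p => G.Adj p.1 p.2 ∧ (p.1 ∈ un G x y ∨ p.2 ∈ un G x y))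

theorem card_out {D : ℕ} (hreg : ∀ x, dg G x = D) (x y : V) :
    (out G x y).card + (inn G x y).card = 2 * ((un G x y).card * D) := by
  have h1 : (univ.filter (fun p : V × V => G.Adj p.1 p.2 ∧ p.1 ∈ un G x y)).card =
      (un G x y).card * D := by
    rw [card_eq_sum_card_fiberwise (f := Prod.fst) (t := un G x y)
      (fun p hp => (mem_filter.1 hp).2.2)]
    rw [sum_congr rfl (g := fun _ => D), sum_const, smul_eq_mul]
    intro b hb
    rw [← hreg b]
    unfold dg
    refine card_nbij Prod.snd ?_ ?_ ?_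
    · intro p hp
      obtain ⟨h1, h2⟩ := mem_filter.1 hp
      have := (mem_filter.1 h1).2.1
      rw [h2] at this
      exact mem_filter.2 ⟨mem_univ _, this⟩
    · intro p hp q hq h
      exact Prod.ext ((mem_filter.1 hp).2.trans (mem_filter.1 hq).2.symm) h
    · intro c hc
      exact ⟨(b, c), mem_filter.2 ⟨mem_filter.2 ⟨mem_univ _, (mem_filter.1 hc).2, hb⟩, rfl⟩, rfl⟩
  have h2 : (univ.filter (fun p : V × V => G.Adj p.1 p.2 ∧ p.2 ∈ un G x y)).card =
      (un G x y).card * D := by
    rw [← h1]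
    refine card_nbij Prod.swap ?_ ?_ ?_
    · intro p hp
      obtain ⟨_, h3, h4⟩ := mem_filter.1 hp
      exact mem_filter.2 ⟨mem_univ _, h3.symm, h4⟩
    · intro p _ q _ h
      exact Prod.swap_injective h
    · intro p hp
      obtain ⟨_, h3, h4⟩ := mem_filter.1 hp
      exact ⟨p.swap, mem_filter.2 ⟨mem_univ _, h3.symm, h4⟩, rfl⟩
  have h3 : out G x y = univ.filter (fun p : V × V => G.Adj p.1 p.2 ∧ p.1 ∈ un G x y) ∪
      univ.filter (fun p : V × V => G.Adj p.1 p.2 ∧ p.2 ∈ un G x y) := by
    ext p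
    simp only [out, mem_filter, mem_univ, true_and, mem_union]
    tauto
  have h4 : inn G x y = univ.filter (fun p : V × V => G.Adj p.1 p.2 ∧ p.1 ∈ un G x y) ∩
      univ.filter (fun p : V × V => G.Adj p.1 p.2 ∧ p.2 ∈ un G x y) := by
    ext p
    simp only [inn, mem_filter, mem_univ, true_and, mem_inter]
    tauto
  rw [h3, h4, card_union_add_card_inter, h1, h2]
  ring

omit [Fintype V] in
/-- A choice of the ends of an edge. -/
theorem ends (e : {e : Sym2 V // e ∈ G.edgeSet}) :
    ∃ q : V × V, e.1 = s(q.1, q.2) ∧ G.Adj q.1 q.2 := by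
  obtain ⟨e, he⟩ := e
  induction e using Sym2.ind with
  | _ x y => exact ⟨(x, y), rfl, he⟩

/-- The two orientations of an edge. -/
noncomputable def ori (i : {e : Sym2 V // e ∈ G.edgeSet} × Bool) : V × V :=
  if i.2 then (ends i.1).choose else (ends i.1).choose.swap

omit [Fintype V] in
theorem ori_spec (i : {e : Sym2 V // e ∈ G.edgeSet} × Bool) :
    i.1.1 = s((ori i).1, (ori i).2) ∧ G.Adj (ori i).1 (ori i).2 := by
  obtain ⟨h1, h2⟩ := (ends i.1).choose_spec
  unfold ori
  split_ifs
  · exact ⟨h1, h2⟩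
  · refine ⟨?_, h2.symm⟩
    rw [Prod.fst_swap, Prod.snd_swap, Sym2.eq_swap]
    exact h1

theorem ori_inj : Function.Injective (ori (G := G)) := by
  intro i j h
  have h1 : i.1 = j.1 := by
    apply Subtype.ext
    rw [(ori_spec i).1, (ori_spec j).1, h]
  obtain ⟨e, a⟩ := i
  obtain ⟨e', b⟩ := j
  simp only at h1
  subst h1
  have h2 := (ends e).choose_spec.2
  unfold ori at h
  simp only at h
  cases a <;> cases b
  · rfl
  · exfalso
    simp only [Bool.false_eq_true, if_false, if_true] at h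
    have := congrArg Prod.fst h
    rw [Prod.fst_swap] at this
    rw [this] at h2
    exact G.loopless.irrefl _ h2
  · exfalso
    simp only [Bool.false_eq_true, if_false, if_true] at h
    have := congrArg Prod.fst h
    rw [Prod.fst_swap] at this
    rw [this] at h2
    exact G.loopless.irrefl _ h2
  · rfl

theorem card_cn (e : {e : Sym2 V // e ∈ G.edgeSet}) (x y : V) (hxy : e.1 = s(x, y))
    (hadj : G.Adj x y) : 2 * (cn (Cf G) e).card ≤ (out G x y).card := by
  have h1 : 2 * (cn (Cf G) e).card = ((cn (Cf G) e) ×ˢ (univ : Finset Bool)).card := by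
    rw [card_product, card_univ, Fintype.card_bool, mul_comm]
  rw [h1]
  refine card_le_card_of_injOn ori ?_ (fun i _ j _ h => ori_inj h)
  intro i hi
  have hi1 : i.1 ∈ cn (Cf G) e := (mem_product.1 hi).1
  obtain ⟨h2, h3⟩ := ori_spec i
  refine mem_filter.2 ⟨mem_univ _, h3, ?_⟩
  have key : ∀ u v, u ∈ s(x, y) → (u = v ∨ G.Adj u v) → v ∈ un G x y := by
    intro u v hu huv
    rw [mem_un]
    rw [Sym2.mem_iff] at hu
    rcases hu with rfl | rfl <;> rcases huv with rfl | huv
    · exact Or.inr hadj.symm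
    · exact Or.inl huv
    · exact Or.inl hadj
    · exact Or.inr huv
  rcases mem_cn.1 hi1 with h4 | ⟨u, hu, v, hv, h4⟩
  · left
    have h5 : (ori i).1 ∈ s(x, y) := by
      rw [← hxy, ← h4, h2]
      exact Sym2.mem_mk_left _ _
    exact key _ _ h5 (Or.inl rfl)
  · rw [hxy] at hu
    rw [h2, Sym2.mem_iff] at hv
    rcases hv with rfl | rfl
    · exact Or.inl (key _ _ hu h4)
    · exact Or.inr (key _ _ hu h4)

theorem F_le {c : ℝ} {D : ℕ} (hreg : ∀ x, dg G x = D) (e : {e : Sym2 V // e ∈ G.edgeSet})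
    (x y : V) (hxy : e.1 = s(x, y)) (hadj : G.Adj x y) :
    F G c D x y ≤ 2 * c * (D : ℝ) ^ 2 - ((cn (Cf G) e).card : ℝ) := by
  have h1 := card_cn e x y hxy hadj
  have h2 := card_out hreg x y
  have h3 : 2 * ((cn (Cf G) e).card : ℝ) ≤ ((out G x y).card : ℝ) := by exact_mod_cast h1
  have h4 : ((out G x y).card : ℝ) + ((inn G x y).card : ℝ) = 2 * (((un G x y).card : ℝ) * D) := by
    exact_mod_cast h2
  unfold F
  linarith

theorem F_pos {c : ℝ} (hc : 1 < c) {D : ℕ} (hD : 1 ≤ D) (hreg : ∀ x, dg G x = D) (x y : V) :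
    0 < F G c D x y := by
  have h1 : ((un G x y).card : ℝ) ≤ 2 * D := by exact_mod_cast card_un_le hreg x y
  have h2 : (1 : ℝ) ≤ D := by exact_mod_cast hD
  have h3 : (0 : ℝ) ≤ ((inn G x y).card : ℝ) := Nat.cast_nonneg _
  have h4 : ((un G x y).card : ℝ) * D ≤ 2 * D * D := mul_le_mul_of_nonneg_right h1 (by linarith)
  have h5 : (D : ℝ) ^ 2 < c * (D : ℝ) ^ 2 := by
    have : 0 < (D : ℝ) ^ 2 := by positivity
    nlinarith
  unfold F
  nlinarith

end

/-- The inequality for nonnegative weights on a strong clique. -/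
def QF {W : Type} [Fintype W] (H : SimpleGraph W) (c : ℝ) (D : ℕ) : Prop :=
  ∀ lam : W → W → ℝ, (∀ x y, 0 ≤ lam x y) → (∀ x y, lam x y = lam y x) →
    (∀ x y, lam x y ≠ 0 → H.Adj x y) →
    (∀ x y u v, lam x y ≠ 0 → lam u v ≠ 0 → H.Adj x u ∨ H.Adj x v ∨ H.Adj y u ∨ H.Adj y v) →
    (∑ x, ∑ y, lam x y) ^ 2 ≤ 2 * ∑ x, ∑ y, lam x y ^ 2 * F H c D x y

theorem frac_regular {V : Type} [Fintype V] (G : SimpleGraph V) {c : ℝ} (hc : 1 < c) {D : ℕ}
    (hD : 1 ≤ D) (hreg : ∀ x, dg G x = D) (hQF : QF G c D) :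
    FracStrongIndexLE G (c * (D : ℝ) ^ 2) := by
  let E := {e : Sym2 V // e ∈ G.edgeSet}
  have hD' : (1 : ℝ) ≤ D := by exact_mod_cast hD
  let f : E → ℝ := fun e => 2 * c * (D : ℝ) ^ 2 - ((cn (Cf G) e).card : ℝ)
  have hFf : ∀ i : E × Bool, F G c D (ori i).1 (ori i).2 ≤ f i.1 := fun i =>
    F_le hreg i.1 _ _ (ori_spec i).1 (ori_spec i).2
  have hf : ∀ e, 0 < f e := fun e => (F_pos hc hD hreg _ _).trans_le (hFf (e, true))
  obtain ⟨p, hp0, hpI, hpR, hpc⟩ := cover (Cf G) (fun e g h => Cf_symm h) (c * (D : ℝ) ^ 2)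
    (by positivity) f hf (fun e => by simp only [f]; linarith) (by
      intro Q hQ
      -- the weights
      let lam : V → V → ℝ := fun x y =>
        if h : G.Adj x y then (if (⟨s(x, y), h⟩ : E) ∈ Q then 1 / F G c D x y else 0) else 0
      have hF := fun x y => F_pos (G := G) hc hD hreg x y
      have hl0 : ∀ x y, 0 ≤ lam x y := by
        intro x y
        simp only [lam]
        split_ifs
        · exact (one_div_pos.2 (hF x y)).le
        · exact le_rfl
        · exact le_rfl
      have hlne : ∀ x y, lam x y ≠ 0 → ∃ h : G.Adj x y, (⟨s(x, y), h⟩ : E) ∈ Q := by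
        intro x y h
        simp only [lam] at h
        split_ifs at h with h1 h2
        · exact ⟨h1, h2⟩
        · exact absurd rfl h
        · exact absurd rfl h
      have hls : ∀ x y, lam x y = lam y x := by
        intro x y
        simp only [lam]
        by_cases h : G.Adj x y
        · have h2 : (⟨s(x, y), h⟩ : E) = ⟨s(y, x), h.symm⟩ := Subtype.ext Sym2.eq_swap
          rw [dif_pos h, dif_pos h.symm, h2, F_comm]
        · rw [dif_neg h, dif_neg (fun h' => h h'.symm)]
      have hmain := hQF lam hl0 hls (fun x y h => (hlne x y h).1) (by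
        intro x y u v h1 h2
        obtain ⟨a1, a2⟩ := hlne x y h1
        obtain ⟨b1, b2⟩ := hlne u v h2
        by_cases hne : (⟨s(x, y), a1⟩ : E) = ⟨s(u, v), b1⟩
        · have h3 : s(x, y) = s(u, v) := congrArg Subtype.val hne
          rw [Sym2.eq_iff] at h3
          rcases h3 with ⟨rfl, rfl⟩ | ⟨rfl, rfl⟩
          · exact Or.inr (Or.inl a1)
          · exact Or.inl a1
        · obtain ⟨a, ha, b, hb, hab⟩ := hQ _ a2 _ b2 hne
          simp only [Sym2.mem_iff] at ha hb
          rcases ha with rfl | rfl <;> rcases hb with rfl | rfl <;> rcases hab with rfl | hab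
          · exact Or.inr (Or.inl b1)
          · exact Or.inl hab
          · exact Or.inl b1.symm
          · exact Or.inr (Or.inl hab)
          · exact Or.inr (Or.inr (Or.inr b1))
          · exact Or.inr (Or.inr (Or.inl hab))
          · exact Or.inr (Or.inr (Or.inl b1.symm))
          · exact Or.inr (Or.inr (Or.inr hab)))
      have h1 : ∀ x y, lam x y ^ 2 * F G c D x y = lam x y := by
        intro x y
        have := (hF x y).ne'
        simp only [lam]
        split_ifs
        · field_simp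
        · ring
        · ring
      simp only [h1] at hmain
      set L := ∑ x, ∑ y, lam x y with hL
      have hL0 : 0 ≤ L := sum_nonneg fun x _ => sum_nonneg fun y _ => hl0 x y
      have hL2 : L ≤ 2 := by
        by_contra hcon
        nlinarith [not_le.1 hcon]
      have h2 : ∑ i ∈ Q ×ˢ (univ : Finset Bool), 1 / f i.1 ≤ L := by
        calc ∑ i ∈ Q ×ˢ (univ : Finset Bool), 1 / f i.1
            ≤ ∑ i ∈ Q ×ˢ (univ : Finset Bool), lam (ori i).1 (ori i).2 := by
              refine sum_le_sum fun i hi => ?_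
              have hi1 := (mem_product.1 hi).1
              have h3 : lam (ori i).1 (ori i).2 = 1 / F G c D (ori i).1 (ori i).2 := by
                simp only [lam]
                rw [dif_pos (ori_spec i).2, if_pos]
                have : (⟨s((ori i).1, (ori i).2), (ori_spec i).2⟩ : E) = i.1 :=
                  Subtype.ext (ori_spec i).1.symm
                rw [this]
                exact hi1
              rw [h3]
              exact one_div_le_one_div_of_le (hF _ _) (hFf i)
          _ = ∑ q ∈ (Q ×ˢ (univ : Finset Bool)).image ori, lam q.1 q.2 := by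
              rw [sum_image (fun i _ j _ h => ori_inj h)]
          _ ≤ ∑ q : V × V, lam q.1 q.2 :=
              sum_le_sum_of_subset_of_nonneg (subset_univ _) fun q _ _ => hl0 _ _
          _ = L := by rw [Fintype.sum_prod_type]
      rw [sum_product] at h2
      simp only [sum_const, card_univ, Fintype.card_bool, nsmul_eq_mul] at h2
      rw [← mul_sum] at h2
      push_cast at h2
      linarith)
  refine of_family p (fun M => M.map (Function.Embedding.subtype _)) hp0 ?_ hpR ?_
  · intro M hM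
    have hI := hpI M hM
    refine ⟨?_, ?_⟩
    · intro e he
      obtain ⟨a, _, rfl⟩ := mem_map.1 he
      exact a.2
    · intro e he g hg hne u hu v hv
      obtain ⟨a, ha, rfl⟩ := mem_map.1 he
      obtain ⟨b, hb, rfl⟩ := mem_map.1 hg
      have h1 := hI a ha b hb (fun h => hne (by rw [h]))
      exact ⟨fun hc => h1 ⟨u, hu, v, hv, Or.inl hc⟩, fun hc => h1 ⟨u, hu, v, hv, Or.inr hc⟩⟩
  · intro e he
    refine (hpc ⟨e, he⟩).trans (le_of_eq ?_)
    rw [sum_filter]
    refine sum_congr rfl fun M _ => ?_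
    have : (e ∈ M.map (Function.Embedding.subtype _)) ↔ (⟨e, he⟩ : E) ∈ M := by
      rw [mem_map]
      constructor
      · rintro ⟨a, ha, rfl⟩
        exact ha
      · intro h
        exact ⟨⟨e, he⟩, h, rfl⟩
    by_cases h : (⟨e, he⟩ : E) ∈ M
    · rw [if_pos h, if_pos (this.2 h)]
    · rw [if_neg h, if_neg (fun hh => h (this.1 hh))]

/-- The reduction. `tf` is `True` for triangle-free graphs and `False` for all graphs. -/
theorem frac_of_QF (tf : Prop) {c : ℝ} (hc : 1 < c)
    (hQF : ∀ (W : Type) [Fintype W] (H : SimpleGraph W) (D : ℕ), 1 ≤ D → (tf → TF H) →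
      (∀ x, dg H x = D) → QF H c D) (V : Type) [Fintype V] (G : SimpleGraph V) (D : ℕ) (hD : 1 ≤ D)
    (htf : tf → TF G) (hdeg : ∀ x, dg G x ≤ D) : FracStrongIndexLE G (c * (D : ℝ) ^ 2) := by
  obtain ⟨W, fW, H, φ, hH, hφ, hadj, hT⟩ := exists_regular D D V G hdeg (fun x => by omega)
  exact frac_mono hφ hadj (frac_regular H hc hD hH (hQF W H D hD (fun h => hT (htf h)) hH))

/-- The weight for triangle-free graphs. -/
theorem F_tf {W : Type} [Fintype W] {H : SimpleGraph W} (hT : TF H) (c : ℝ) {D : ℕ}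
    (hreg : ∀ x, dg H x = D) {x y : W} (hxy : H.Adj x y) :
    F H c D x y = 2 * (c - 1) * (D : ℝ) ^ 2 +
      ((univ.filter (fun p : W × W => H.Adj x p.1 ∧ H.Adj y p.2 ∧ H.Adj p.1 p.2)).card : ℝ) := by
  have h1 : (un H x y).card = 2 * D := by
    unfold un
    rw [card_union_of_disjoint]
    · have h1 : (nb H x).card = D := hreg x
      have h2 : (nb H y).card = D := hreg y
      omega
    · rw [disjoint_left]
      intro z hz hz'
      rw [mem_nb] at hz hz'
      exact hT x y z hxy hz' hz
  have h2 : (inn H x y).card =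
      2 * (univ.filter (fun p : W × W => H.Adj x p.1 ∧ H.Adj y p.2 ∧ H.Adj p.1 p.2)).card := by
    have h3 : inn H x y = univ.filter (fun p : W × W => H.Adj x p.1 ∧ H.Adj y p.2 ∧
        H.Adj p.1 p.2) ∪ univ.filter (fun p : W × W => H.Adj y p.1 ∧ H.Adj x p.2 ∧
        H.Adj p.1 p.2) := by
      ext p
      simp only [inn, mem_filter, mem_univ, true_and, mem_union, mem_un]
      constructor
      · rintro ⟨h1, h2 | h2, h3 | h3⟩
        · exact absurd h3 (hT _ _ _ h2 h1)
        · exact Or.inl ⟨h2, h3, h1⟩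
        · exact Or.inr ⟨h2, h3, h1⟩
        · exact absurd h3 (hT _ _ _ h2 h1)
      · rintro (⟨h1, h2, h3⟩ | ⟨h1, h2, h3⟩)
        · exact ⟨h3, Or.inl h1, Or.inr h2⟩
        · exact ⟨h3, Or.inr h1, Or.inl h2⟩
    rw [h3, card_union_of_disjoint, two_mul]
    · congr 1
      refine card_nbij Prod.swap ?_ ?_ ?_
      · intro p hp
        obtain ⟨_, h3, h4, h5⟩ := mem_filter.1 hp
        exact mem_filter.2 ⟨mem_univ _, h4, h3, h5.symm⟩
      · intro p _ q _ h
        exact Prod.swap_injective h
      · intro p hp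
        obtain ⟨_, h3, h4, h5⟩ := mem_filter.1 hp
        exact ⟨p.swap, mem_filter.2 ⟨mem_univ _, h4, h3, h5.symm⟩, rfl⟩
    · rw [disjoint_left]
      intro p hp hp'
      exact hT _ _ _ hxy (mem_filter.1 hp').2.1 (mem_filter.1 hp).2.1
  unfold F
  rw [h1, h2]
  push_cast
  ring

end Pool.Agent.Helper60.SL
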