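import Pool.Agent.Helper60.SL.ConnKey
import Pool.Agent.Helper96.FC.TDef

/-!
# The tables of the certificate vanish on disconnected flags
-/

set_option autoImplicit false

namespace Pool.Agent.Helper60.SL

open Finset Pool.Agent.Helper96.FC

theorem cdot_off_left (l : List (ℕ × ℕ)) (w : List ℕ) : cdot l (l.map Prod.fst) w = 0 := by
  induction l generalizing w with
  | nil => simp [cdot]
  | cons c l ih =>
    obtain ⟨c, d⟩ := c
    cases w with
    | nil => simp [cdot]
    | cons q w =>
      rw [List.map_cons, cdot, ih]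
      simp

theorem cdot_off_right (l : List (ℕ × ℕ)) (v : List ℕ) : cdot l v (l.map Prod.fst) = 0 := by
  induction l generalizing v with
  | nil => simp [cdot]
  | cons c l ih =>
    obtain ⟨c, d⟩ := c
    cases v with
    | nil => simp [cdot]
    | cons q v =>
      rw [List.map_cons, cdot, ih]
      simp

theorem ent_zero {t w m n e : ℕ} (ht : Nat.blt t (2 ^ (w * n)) = true) (he : n ≤ e) :
    ent t w m e = 0 := by
  unfold ent
  have h1 : t < 2 ^ (w * n) := Nat.le_of_ble_eq_true ht
  have h2 : t < 2 ^ (w * e) := h1.trans_le (Nat.pow_le_pow_right (by norm_num)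
    (Nat.mul_le_mul_left _ he))
  have h3 : Nat.shiftRight t (Nat.mul w e) = 0 := by
    show t >>> (w * e) = 0
    rw [Nat.shiftRight_eq_div_pow]
    exact Nat.div_eq_of_lt h2
  rw [h3]
  show 0 &&& m = 0
  exact Nat.zero_and m

theorem ki_chk : allN 17280 (fun k => cond (ck k) true (Nat.beq (ent tKI 9 511 k) 0)) = true := by
  decide +kernel

theorem ki4_chk : allN 432 (fun k => cond (ckg k) true (Nat.beq (ent tKI4 8 255 k) 0)) = true := by
  decide +kernel

theorem tKI_lt : Nat.blt tKI (2 ^ (9 * 17280)) = true := by decide +kernel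

theorem tKI4_lt : Nat.blt tKI4 (2 ^ (8 * 432)) = true := by decide +kernel

theorem ki_zero {k : ℕ} (h : ck k = false) : T0.ki k = 0 := by
  show ent tKI 9 511 k = 0
  rcases Nat.lt_or_ge k 17280 with hk | hk
  · have h1 := (allN_iff _ _).1 ki_chk k hk
    rw [h, cond_false] at h1
    exact Nat.eq_of_beq_eq_true h1
  · exact ent_zero tKI_lt hk

theorem ki4_zero {k : ℕ} (h : ckg k = false) : T0.ki4 k = 0 := by
  show ent tKI4 8 255 k = 0
  rcases Nat.lt_or_ge k 432 with hk | hk
  · have h1 := (allN_iff _ _).1 ki4_chk k hk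
    rw [h, cond_false] at h1
    exact Nat.eq_of_beq_eq_true h1
  · exact ent_zero tKI4_lt hk

theorem vec_zero' : ∀ cl < 9, vecF cl 0 = (cdF cl).map Prod.fst := by
  decide +kernel

theorem vec_zero (cl : ℕ) : T0.vec cl 0 = (T0.cd cl).map Prod.fst := by
  show vecF cl 0 = (cdF cl).map Prod.fst
  rcases Nat.lt_or_ge cl 9 with h | h
  · exact vec_zero' cl h
  · have h1 : cdF cl = [] := by
      unfold cdF
      rw [List.getD_eq_default]
      exact h
    unfold vecF
    rw [h1]
    rfl

theorem X_zero_left (cl j : ℕ) : T0.X cl 0 j = 0 := by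
  unfold TD.X
  rw [vec_zero]
  exact cdot_off_left _ _

theorem X_zero_right (cl i : ℕ) : T0.X cl i 0 = 0 := by
  unfold TD.X
  rw [vec_zero]
  exact cdot_off_right _ _

theorem XA_zero (r k k' : ℕ) (h : ck k = false ∨ ck k' = false) :
    T0.XA r (T0.ki k) (T0.ki k') = 0 := by
  unfold TD.XA
  split_ifs
  · rfl
  · rcases h with h | h
    · rw [ki_zero h, X_zero_left]
    · rw [ki_zero h, X_zero_right]

theorem XC_zero (r k k' : ℕ) (h : ckg k = false ∨ ckg k' = false) :
    T0.XC r (T0.ki4 k) (T0.ki4 k') = 0 := by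
  unfold TD.XC
  split_ifs
  · rcases h with h | h
    · rw [ki4_zero h, X_zero_left]
    · rw [ki4_zero h, X_zero_right]
  · rfl

end Pool.Agent.Helper60.SL
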