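import Pool.Agent.Helper60.SL.Cert
import Pool.Agent.Helper96.FC.TypC

/-!
# The multipliers of type C
-/

set_option autoImplicit false

namespace Pool.Agent.Helper60.SL

open Finset Pool.Agent.Helper96.FC

theorem nbz {n : ℕ} (h : n ≠ 0) : (!n.beq 0) = true := by
  cases n with
  | zero => exact absurd rfl h
  | succ n => rfl

/-- A set of positions which contains with `0` every position. -/
theorem all_or_none {n : ℕ} (P : Finset (Fin n)) (i0 : Fin n) (h : ∀ i, i0 ∈ P ↔ i ∈ P)
    (hP : P.Nonempty) (hP2 : P ≠ univ) : False := by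
  obtain ⟨i, hi⟩ := hP
  exact hP2 (eq_univ_of_forall fun j => (h j).1 ((h i).2 hi))

theorem bT_ne : ∀ b < 49, bT b ≠ 0 := by decide +kernel

theorem prC_zero : ∀ b < 49, ∀ z : Fin 5, wdg (prC (Nat.add (Nat.mul 36 b) 0)) z = cW := by
  decide +kernel

/-- all weights are zero -/
noncomputable def wz (e : ℕ) : Bool :=
  Nat.beq (wdg e 0) cW && (Nat.beq (wdg e 1) cW && (Nat.beq (wdg e 2) cW &&
    (Nat.beq (wdg e 3) cW && Nat.beq (wdg e 4) cW)))

theorem wz_ok {e : ℕ} (h : wz e = true) (z : Fin 5) : wdg e z = cW := by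
  unfold wz at h
  simp only [Bool.and_eq_true] at h
  obtain ⟨h0, h1, h2, h3, h4⟩ := h
  fin_cases z
  · exact Nat.eq_of_beq_eq_true h0
  · exact Nat.eq_of_beq_eq_true h1
  · exact Nat.eq_of_beq_eq_true h2
  · exact Nat.eq_of_beq_eq_true h3
  · exact Nat.eq_of_beq_eq_true h4

/-- bounds and sum of weights -/
theorem wdg_sum {e : ℕ} (h : chkR e = true) : ∑ z : Fin 5, ((wdg e z : ℤ) - cW) = 0 := by
  have h1 := (chkR_ok h).2.1
  rw [Fin.sum_univ_five]
  have h2 : ((wdg e 0 + wdg e 1 + wdg e 2 + wdg e 3 + wdg e 4 : ℕ) : ℤ) = (5 * cW : ℕ) := by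
    rw [h1]
  push_cast at h2
  linarith

theorem wdg_le {e : ℕ} (h : chkR e = true) (z : Fin 5) :
    ((wdg e z : ℤ) - cW) ≤ (2 ^ 50 : ℕ) := by
  have h1 := (chkR_ok h).2.2 z
  have h2 : (wdg e z : ℤ) ≤ (2 ^ 50 : ℕ) := by exact_mod_cast h1
  have h3 : (0 : ℤ) ≤ cW := Int.natCast_nonneg _
  linarith

theorem mulC (R : ∀ i < 1764, chkR (prC i) = true) :
    MultOk (fun _ _ S => Sys.omC S) 2 3 (2 ^ 50) where
  sum := by
    intro V _ S y
    show ∑ z : Fin 5, S.omC y z = 0
    unfold Sys.omC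
    by_cases h : S.bOk y
    · simp only [if_pos h]
      refine wdg_sum (R _ ?_)
      have h1 := bI_lt _ (S.bs6_lt y)
      have h2 := S.vw_lt (y 0) (y 1) (y 4)
      have h3 := S.vw_lt (y 2) (y 3) (y 4)
      show 36 * _ + _ < _
      omega
    · simp only [if_neg h, sum_const_zero]
  le := by
    intro V _ S y z
    show S.omC y z ≤ _
    unfold Sys.omC
    by_cases h : S.bOk y
    · rw [if_pos h]
      refine wdg_le (R _ ?_) z
      have h1 := bI_lt _ (S.bs6_lt y)
      have h2 := S.vw_lt (y 0) (y 1) (y 4)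
      have h3 := S.vw_lt (y 2) (y 3) (y 4)
      show 36 * _ + _ < _
      omega
    · rw [if_neg h]
      exact Int.natCast_nonneg _
  conn := by
    intro V _ S y h01 h23 z hz
    have hz : S.omC y z ≠ 0 := hz
    unfold Sys.omC at hz
    by_cases hb : S.bOk y
    swap
    · rw [if_neg hb] at hz
      exact absurd rfl hz
    rw [if_pos hb] at hz
    intro P hP hP2
    by_contra hno
    have c0 := cross S y P hno 0 1 (S.q_adj _ _ h01)
    have c1 := cross S y P hno 2 3 (S.q_adj _ _ h23)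
    have hbase : (0 : Fin 5) ∈ P ↔ 2 ∈ P := by
      by_contra hne
      have e1 : S.vw (y 0) (y 1) (y 2) = 0 := by
        by_contra h
        exact hne (vw_cross S y P hno 0 1 2 c0 (nbz h))
      have e2 : S.vw (y 0) (y 1) (y 3) = 0 := by
        by_contra h
        exact hne ((vw_cross S y P hno 0 1 3 c0 (nbz h)).trans c1.symm)
      have e3 : S.vw (y 2) (y 3) (y 0) = 0 := by
        by_contra h
        exact hne (vw_cross S y P hno 2 3 0 c1 (nbz h)).symm
      have e4 : S.vw (y 2) (y 3) (y 1) = 0 := by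
        by_contra h
        exact hne (c0.trans (vw_cross S y P hno 2 3 1 c1 (nbz h)).symm)
      have hb2 : bT (bI (S.bs6 y)) = S.bs8 y := hb
      have e5 : S.bs8 y = 0 := by
        unfold Sys.bs8
        rw [e1, e2, e3, e4]
      rw [e5] at hb2
      exact bT_ne _ (bI_lt _ (S.bs6_lt y)) hb2
    have h4 : (0 : Fin 5) ∈ P ↔ 4 ∈ P := by
      by_contra hne
      have e1 : S.vw (y 0) (y 1) (y 4) = 0 := by
        by_contra h
        exact hne (vw_cross S y P hno 0 1 4 c0 (nbz h))
      have e2 : S.vw (y 2) (y 3) (y 4) = 0 := by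
        by_contra h
        exact hne (hbase.trans (vw_cross S y P hno 2 3 4 c1 (nbz h)))
      rw [e1, e2] at hz
      exact hz (by
        rw [show 6 * 0 + 0 = 0 from rfl, prC_zero _ (bI_lt _ (S.bs6_lt y))]
        exact sub_self _)
    refine all_or_none P 0 (fun i => ?_) hP hP2
    fin_cases i
    · exact Iff.rfl
    · exact c0
    · exact hbase
    · exact hbase.trans c1
    · exact h4

end Pool.Agent.Helper60.SL
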