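import Mathlib

/-!
# A fractional covering bound for the vertices of a finite graph by independent sets

If `f e + |N[e]| ≤ 2γ` for all vertices `e` and `∑_{e ∈ Q} 1 / f e ≤ 1` for every clique `Q`, then the
fractional chromatic number is at most `γ`.
-/

set_option autoImplicit false

namespace Pool.Agent.Helper60.SL

open Finset
open scoped Classical

variable {E : Type} [Fintype E]

/-- Independent sets of the relation `C`. -/
def Ind (C : E → E → Prop) (M : Finset E) : Prop := ∀ e ∈ M, ∀ g ∈ M, e ≠ g → ¬ C e g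

/-- The closed neighbourhood. -/
noncomputable def cn (C : E → E → Prop) (e : E) : Finset E :=
  univ.filter (fun g => g = e ∨ C e g)

theorem mem_cn {C : E → E → Prop} {e g : E} : g ∈ cn C e ↔ g = e ∨ C e g := by
  unfold cn
  rw [mem_filter]
  exact and_iff_right (mem_univ _)

theorem saddle [Nonempty E] (C : E → E → Prop) :
    ∃ (w : E → ℝ) (p : {M : Finset E // Ind C M} → ℝ) (v : ℝ),
      (∀ e, 0 ≤ w e) ∧ ∑ e, w e = 1 ∧ (∀ M, 0 ≤ p M) ∧ ∑ M, p M = 1 ∧
      (∀ M : {M : Finset E // Ind C M}, ∑ e ∈ M.1, w e ≤ v) ∧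
      (∀ e, v ≤ ∑ M, if e ∈ M.1 then p M else 0) := by
  let I := {M : Finset E // Ind C M}
  have : Nonempty I := ⟨⟨∅, fun e he => absurd he (notMem_empty e)⟩⟩
  let F : (E → ℝ) → (I → ℝ) → ℝ := fun w p => ∑ e, ∑ M, if e ∈ M.1 then w e * p M else 0
  have hF1 : ∀ (a b : ℝ) (w w' : E → ℝ) (p : I → ℝ),
      F (a • w + b • w') p = a * F w p + b * F w' p := by
    intro a b w w' p
    simp only [F, mul_sum, ← sum_add_distrib]
    refine sum_congr rfl fun e _ => sum_congr rfl fun M _ => ?_
    split_ifs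
    · simp only [Pi.add_apply, Pi.smul_apply, smul_eq_mul]
      ring
    · ring
  have hF2 : ∀ (a b : ℝ) (w : E → ℝ) (p p' : I → ℝ),
      F w (a • p + b • p') = a * F w p + b * F w p' := by
    intro a b w p p'
    simp only [F, mul_sum, ← sum_add_distrib]
    refine sum_congr rfl fun e _ => sum_congr rfl fun M _ => ?_
    split_ifs
    · simp only [Pi.add_apply, Pi.smul_apply, smul_eq_mul]
      ring
    · ring
  obtain ⟨w, hw, p, hp, hsad⟩ := Sion.exists_isSaddlePointOn (E := E → ℝ) (F := I → ℝ)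
    (X := stdSimplex ℝ E) (Y := stdSimplex ℝ I) (f := F)
    ⟨_, single_mem_stdSimplex ℝ (Classical.arbitrary E)⟩ (convex_stdSimplex ℝ E)
    (isCompact_stdSimplex ℝ E)
    (by
      intro y _
      refine Continuous.lowerSemicontinuous ?_ |>.lowerSemicontinuousOn _
      refine continuous_finsetSum _ fun e _ => continuous_finsetSum _ fun M _ => ?_
      split_ifs
      · exact (continuous_apply e).mul continuous_const
      · exact continuous_const)
    (by
      intro y _
      refine ConvexOn.quasiconvexOn ⟨convex_stdSimplex ℝ E, ?_⟩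
      intro x _ x' _ a b _ _ _
      exact (hF1 a b x x' y).le)
    (convex_stdSimplex ℝ I) ⟨_, single_mem_stdSimplex ℝ (Classical.arbitrary I)⟩
    (isCompact_stdSimplex ℝ I)
    (by
      intro x _
      refine Continuous.upperSemicontinuous ?_ |>.upperSemicontinuousOn _
      refine continuous_finsetSum _ fun e _ => continuous_finsetSum _ fun M _ => ?_
      split_ifs
      · exact continuous_const.mul (continuous_apply M)
      · exact continuous_const)
    (by
      intro x _
      refine ConcaveOn.quasiconcaveOn ⟨convex_stdSimplex ℝ I, ?_⟩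
      intro y _ y' _ a b _ _ _
      exact (hF2 a b x y y').ge)
  have h1 : ∀ M : I, ∑ e ∈ M.1, w e ≤ F w p := by
    intro M
    have h := hsad w hw _ (single_mem_stdSimplex ℝ M)
    refine le_trans (le_of_eq ?_) h
    simp only [F]
    rw [← sum_filter_add_sum_filter_not univ (fun e => e ∈ M.1)]
    rw [sum_eq_zero (s := univ.filter (fun e => ¬ e ∈ M.1)), add_zero]
    · rw [filter_mem_eq_inter, univ_inter]
      refine sum_congr rfl fun e he => ?_
      rw [sum_eq_single M]
      · rw [if_pos he, Pi.single_eq_same, mul_one]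
      · intro N _ hN
        rw [Pi.single_eq_of_ne hN, mul_zero, ite_self]
      · intro hh
        exact absurd (mem_univ _) hh
    · intro e he
      refine sum_eq_zero fun N _ => ?_
      by_cases hN : N = M
      · rw [hN, if_neg (mem_filter.1 he).2]
      · rw [Pi.single_eq_of_ne hN, mul_zero, ite_self]
  have h2 : ∀ e, F w p ≤ ∑ M : I, if e ∈ M.1 then p M else 0 := by
    intro e
    have h := hsad _ (single_mem_stdSimplex ℝ e) p hp
    refine le_trans h (le_of_eq ?_)
    simp only [F]
    rw [sum_eq_single e]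
    · refine sum_congr rfl fun M _ => ?_
      rw [Pi.single_eq_same, one_mul]
    · intro e' _ he'
      refine sum_eq_zero fun M _ => ?_
      rw [Pi.single_eq_of_ne he', zero_mul, ite_self]
    · intro hh
      exact absurd (mem_univ _) hh
  exact ⟨w, p, F w p, hw.1, hw.2, hp.1, hp.2, h1, h2⟩

/-- The exchange step: a statement on one independent set of maximum weight. -/
theorem exchange {C : E → E → Prop} (hsym : ∀ e g, C e g → C g e) (θ : E → ℝ) (hθ : ∀ e, 0 ≤ θ e)
    (hQ : ∀ Q : Finset E, (∀ e ∈ Q, ∀ g ∈ Q, e ≠ g → C e g) → ∑ e ∈ Q, θ e ≤ 1)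
    (w : E → ℝ) (hw : ∀ e, 0 ≤ w e) (v : ℝ) (hv : ∀ M, Ind C M → ∑ e ∈ M, w e ≤ v)
    (wm : ℝ) (hwm : ∀ e, w e ≤ wm) (hwm0 : 0 < wm)
    (M : Finset E) (hM : Ind C M) (hMv : ∑ e ∈ M, w e = v) :
    ∑ e ∈ univ.filter (fun e => w e = wm),
      θ e * (2 - ((((M ∩ univ.filter (fun e => 0 < w e)) ∩ cn C e).card : ℕ) : ℝ)) ≤
    ((M ∩ univ.filter (fun e => w e = wm)).card : ℝ) := by
  set S := univ.filter (fun e => 0 < w e) with hS
  set T := univ.filter (fun e => w e = wm) with hT
  set M' := M ∩ S with hM'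
  have hMM : Ind C M' := fun e he g hg => hM e (mem_inter.1 he).1 g (mem_inter.1 hg).1
  have hM'v : ∑ e ∈ M', w e = v := by
    rw [← hMv]
    refine sum_subset inter_subset_left ?_
    intro e he he'
    have : ¬ 0 < w e := fun h => he' (mem_inter.2 ⟨he, mem_filter.2 ⟨mem_univ _, h⟩⟩)
    exact le_antisymm (not_lt.1 this) (hw e)
  -- the set of the elements of `T` which can replace `g`
  let Q : E → Finset E := fun g => T.filter (fun e => ∀ h ∈ M'.erase g, h ≠ e ∧ ¬ C h e)
  have hins : ∀ g ∈ M', ∀ e ∈ Q g, Ind C (insert e (M'.erase g)) ∧ e ∉ M'.erase g := by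
    intro g hg e he
    have hh := (mem_filter.1 he).2
    refine ⟨?_, fun hc => (hh e hc).1 rfl⟩
    intro a ha b hb hab
    rcases mem_insert.1 ha with ha' | ha' <;> rcases mem_insert.1 hb with hb' | hb'
    · exact absurd (ha'.trans hb'.symm) hab
    · exact fun hc => (hh b hb').2 (hsym _ _ (ha' ▸ hc))
    · exact fun hc => (hh a ha').2 (hb' ▸ hc)
    · exact hMM a (erase_subset _ _ ha') b (erase_subset _ _ hb') hab
  have hclq : ∀ g ∈ M' ∩ T, ∀ a ∈ Q g, ∀ b ∈ Q g, a ≠ b → C a b := by
    intro g hg a ha b hb hab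
    by_contra hc
    have hgM := (mem_inter.1 hg).1
    have hgT : w g = wm := (mem_filter.1 (mem_inter.1 hg).2).2
    obtain ⟨h1, h2⟩ := hins g hgM a ha
    have hbh := (mem_filter.1 hb).2
    have hbn : b ∉ insert a (M'.erase g) := by
      intro hh
      rcases mem_insert.1 hh with hh | hh
      · exact hab hh.symm
      · exact (hbh b hh).1 rfl
    have h3 : Ind C (insert b (insert a (M'.erase g))) := by
      intro x hx y hy hxy
      rcases mem_insert.1 hx with hx' | hx' <;> rcases mem_insert.1 hy with hy' | hy'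
      · exact absurd (hx'.trans hy'.symm) hxy
      · rcases mem_insert.1 hy' with hy'' | hy''
        · intro h
          rw [hx', hy''] at h
          exact hc (hsym _ _ h)
        · intro h
          rw [hx'] at h
          exact (hbh y hy'').2 (hsym _ _ h)
      · rcases mem_insert.1 hx' with hx'' | hx''
        · intro h
          rw [hx'', hy'] at h
          exact hc h
        · intro h
          rw [hy'] at h
          exact (hbh x hx'').2 h
      · exact h1 x hx' y hy' hxy
    have h4 := hv _ h3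
    rw [sum_insert hbn, sum_insert h2] at h4
    have h5 : ∑ e ∈ M'.erase g, w e + w g = v := by
      rw [← hM'v]
      exact sum_erase_add _ _ hgM
    have ha' : w a = wm := (mem_filter.1 (mem_filter.1 ha).1).2
    have hb' : w b = wm := (mem_filter.1 (mem_filter.1 hb).1).2
    linarith
  have hpt : ∀ e ∈ T, θ e * (2 - (((M' ∩ cn C e).card : ℕ) : ℝ)) ≤
      ∑ g ∈ M' ∩ T, if e ∈ Q g then θ e else 0 := by
    intro e he
    have hewm : w e = wm := (mem_filter.1 he).2
    have hnn : 0 ≤ ∑ g ∈ M' ∩ T, if e ∈ Q g then θ e else 0 := by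
      refine sum_nonneg fun g _ => ?_
      split_ifs
      · exact hθ e
      · exact le_rfl
    have hpos : (M' ∩ cn C e).Nonempty := by
      by_contra hemp
      rw [not_nonempty_iff_eq_empty] at hemp
      have heM : e ∉ M' := by
        intro h
        have : e ∈ M' ∩ cn C e := mem_inter.2 ⟨h, mem_cn.2 (Or.inl rfl)⟩
        rw [hemp] at this
        exact notMem_empty _ this
      have hno : ∀ h ∈ M', ¬ C e h := by
        intro h hh hc
        have : h ∈ M' ∩ cn C e := mem_inter.2 ⟨hh, mem_cn.2 (Or.inr hc)⟩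
        rw [hemp] at this
        exact notMem_empty _ this
      have h3 : Ind C (insert e M') := by
        intro x hx y hy hxy
        rcases mem_insert.1 hx with hx' | hx' <;> rcases mem_insert.1 hy with hy' | hy'
        · exact absurd (hx'.trans hy'.symm) hxy
        · intro h
          rw [hx'] at h
          exact hno y hy' h
        · intro h
          rw [hy'] at h
          exact hno x hx' (hsym _ _ h)
        · exact hMM x hx' y hy' hxy
      have h4 := hv _ h3
      rw [sum_insert heM] at h4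
      linarith
    rcases Nat.lt_or_ge 1 ((M' ∩ cn C e).card) with h2 | h2
    · have : (2 : ℝ) ≤ (((M' ∩ cn C e).card : ℕ) : ℝ) := by exact_mod_cast h2
      have h5 : θ e * (2 - (((M' ∩ cn C e).card : ℕ) : ℝ)) ≤ 0 :=
        mul_nonpos_of_nonneg_of_nonpos (hθ e) (by linarith)
      exact h5.trans hnn
    · have hcard : (M' ∩ cn C e).card = 1 := le_antisymm h2 (card_pos.2 hpos)
      obtain ⟨g, hg⟩ := card_eq_one.1 hcard
      have hgm : g ∈ M' ∩ cn C e := by
        rw [hg]
        exact mem_singleton_self g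
      have hgM := (mem_inter.1 hgm).1
      have hkey : ∀ h ∈ M'.erase g, h ≠ e ∧ ¬ C h e := by
        intro h hh
        obtain ⟨hne, hhM⟩ := mem_erase.1 hh
        have : h ∉ cn C e := by
          intro hc
          have : h ∈ M' ∩ cn C e := mem_inter.2 ⟨hhM, hc⟩
          rw [hg] at this
          exact hne (mem_singleton.1 this)
        rw [mem_cn, not_or] at this
        exact ⟨this.1, fun hc => this.2 (hsym _ _ hc)⟩
      have heQ : e ∈ Q g := mem_filter.2 ⟨he, hkey⟩
      have hgT : g ∈ T := by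
        obtain ⟨h1, h2⟩ := hins g hgM e heQ
        have h4 := hv _ h1
        rw [sum_insert h2] at h4
        have h5 : ∑ e ∈ M'.erase g, w e + w g = v := by
          rw [← hM'v]
          exact sum_erase_add _ _ hgM
        refine mem_filter.2 ⟨mem_univ _, le_antisymm (hwm g) ?_⟩
        linarith
      refine le_trans ?_ (single_le_sum (f := fun g => if e ∈ Q g then θ e else 0)
        (fun g _ => ?_) (mem_inter.2 ⟨hgM, hgT⟩))
      · show _ ≤ if e ∈ Q g then θ e else 0
        rw [if_pos heQ, hcard]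
        norm_num
      · show (0 : ℝ) ≤ if e ∈ Q g then θ e else 0
        split_ifs
        · exact hθ e
        · exact le_rfl
  calc ∑ e ∈ T, θ e * (2 - (((M' ∩ cn C e).card : ℕ) : ℝ))
      ≤ ∑ e ∈ T, ∑ g ∈ M' ∩ T, (if e ∈ Q g then θ e else 0) := sum_le_sum hpt
    _ = ∑ g ∈ M' ∩ T, ∑ e ∈ T, (if e ∈ Q g then θ e else 0) := sum_comm
    _ ≤ ∑ g ∈ M' ∩ T, (1 : ℝ) := by
        refine sum_le_sum fun g hg => ?_
        rw [← sum_filter]
        have : T.filter (fun e => e ∈ Q g) = Q g := by
          ext e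
          rw [mem_filter]
          exact ⟨fun h => h.2, fun h => ⟨(mem_filter.1 h).1, h⟩⟩
        rw [this]
        exact hQ _ (hclq g hg)
    _ = ((M' ∩ T).card : ℝ) := by rw [sum_const, nsmul_eq_mul, mul_one]
    _ ≤ ((M ∩ T).card : ℝ) := by
        exact_mod_cast card_le_card (inter_subset_inter_right inter_subset_left)

/-- The covering bound. -/
theorem cover (C : E → E → Prop) (hsym : ∀ e g, C e g → C g e) (γ : ℝ) (hγ : 0 ≤ γ) (f : E → ℝ)
    (hf : ∀ e, 0 < f e) (hN : ∀ e, f e + ((cn C e).card : ℝ) ≤ 2 * γ)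
    (hQ : ∀ Q : Finset E, (∀ e ∈ Q, ∀ g ∈ Q, e ≠ g → C e g) → ∑ e ∈ Q, 1 / f e ≤ 1) :
    ∃ p : Finset E → ℝ, (∀ M, 0 ≤ p M) ∧ (∀ M, p M ≠ 0 → Ind C M) ∧ ∑ M, p M ≤ γ ∧
      ∀ e, 1 ≤ ∑ M ∈ univ.filter (fun M => e ∈ M), p M := by
  rcases isEmpty_or_nonempty E with hE | hE
  · exact ⟨fun _ => 0, fun _ => le_rfl, fun _ h => absurd rfl h, by simpa using hγ,
      fun e => (hE.false e).elim⟩
  obtain ⟨w, p, v, hw0, hw1, hp0, hp1, hM, hP⟩ := saddle C
  -- the maximum weight
  obtain ⟨e₀, -, he₀⟩ := exists_max_image univ w univ_nonempty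
  have hwm0 : 0 < w e₀ := by
    by_contra hcon
    have : ∑ e, w e ≤ 0 := sum_nonpos fun e _ => (he₀ e (mem_univ e)).trans (not_lt.1 hcon)
    linarith
  have hMv : ∀ M, Ind C M → ∑ e ∈ M, w e ≤ v := fun M h => hM ⟨M, h⟩
  have hv0 : 0 < v := by
    have h := hMv {e₀} (fun a ha b hb hab => by
      rw [mem_singleton] at ha hb
      exact absurd (ha.trans hb.symm) hab)
    rw [sum_singleton] at h
    linarith
  let P : E → ℝ := fun e => ∑ M : {M : Finset E // Ind C M}, if e ∈ M.1 then p M else 0
  have hswap : ∀ x : E → ℝ, ∑ e, x e * P e = ∑ M : {M : Finset E // Ind C M}, p M * ∑ e ∈ M.1, x e := by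
    intro x
    simp only [P, mul_sum]
    rw [sum_comm]
    refine sum_congr rfl fun M _ => ?_
    rw [← sum_filter_add_sum_filter_not univ (fun e => e ∈ M.1)]
    rw [sum_eq_zero (s := univ.filter (fun e => ¬ e ∈ M.1)), add_zero]
    · rw [filter_mem_eq_inter, univ_inter]
      refine sum_congr rfl fun e he => ?_
      rw [if_pos he]
      ring
    · intro e he
      rw [if_neg (mem_filter.1 he).2, mul_zero]
  have hval : ∑ e, w e * P e = v := by
    apply le_antisymm
    · rw [hswap]
      calc ∑ M : {M : Finset E // Ind C M}, p M * ∑ e ∈ M.1, w e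
          ≤ ∑ M : {M : Finset E // Ind C M}, p M * v :=
            sum_le_sum fun M _ => mul_le_mul_of_nonneg_left (hM M) (hp0 M)
        _ = v := by rw [← sum_mul, hp1, one_mul]
    · calc v = ∑ e, w e * v := by rw [← sum_mul, hw1, one_mul]
        _ ≤ ∑ e, w e * P e := sum_le_sum fun e _ => mul_le_mul_of_nonneg_left (hP e) (hw0 e)
  have hPv : ∀ e, 0 < w e → P e = v := by
    have h1 : ∑ e, w e * (P e - v) = 0 := by
      simp only [mul_sub, sum_sub_distrib]
      rw [hval, ← sum_mul, hw1]
      ring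
    have h2 := (sum_eq_zero_iff_of_nonneg (fun e _ =>
      mul_nonneg (hw0 e) (sub_nonneg.2 (hP e)))).1 h1
    intro e he
    rcases mul_eq_zero.1 (h2 e (mem_univ e)) with h | h
    · exact absurd h he.ne'
    · linarith
  have hsupp : ∀ M : {M : Finset E // Ind C M}, p M ≠ 0 → ∑ e ∈ M.1, w e = v := by
    have h1 : ∑ M : {M : Finset E // Ind C M}, p M * (v - ∑ e ∈ M.1, w e) = 0 := by
      simp only [mul_sub, sum_sub_distrib]
      rw [← hswap, hval, ← sum_mul, hp1]
      ring
    have h2 := (sum_eq_zero_iff_of_nonneg (fun M _ =>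
      mul_nonneg (hp0 M) (sub_nonneg.2 (hM M)))).1 h1
    intro M hpM
    rcases mul_eq_zero.1 (h2 M (mem_univ M)) with h | h
    · exact absurd h hpM
    · linarith
  set S := univ.filter (fun e => 0 < w e) with hS
  set T := univ.filter (fun e => w e = w e₀) with hT
  have hTe : e₀ ∈ T := mem_filter.2 ⟨mem_univ _, rfl⟩
  have hθ : ∀ e, 0 ≤ 1 / f e := fun e => (one_div_pos.2 (hf e)).le
  -- average of the exchange step
  have hex : ∑ M : {M : Finset E // Ind C M}, p M * ∑ e ∈ T, 1 / f e *
        (2 - ((((M.1 ∩ S) ∩ cn C e).card : ℕ) : ℝ)) ≤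
      ∑ M : {M : Finset E // Ind C M}, p M * ((M.1 ∩ T).card : ℝ) := by
    refine sum_le_sum fun M _ => ?_
    rcases eq_or_ne (p M) 0 with h | h
    · rw [h, zero_mul, zero_mul]
    · exact mul_le_mul_of_nonneg_left (exchange hsym (fun e => 1 / f e) hθ hQ w hw0 v hMv (w e₀)
        (fun e => he₀ e (mem_univ e)) hwm0 M.1 M.2 (hsupp M h)) (hp0 M)
  have hcard : ∀ A : Finset E, ∑ M : {M : Finset E // Ind C M}, p M * ((M.1 ∩ A).card : ℝ) =
      ∑ e ∈ A, P e := by
    intro A
    have h := hswap (fun e => if e ∈ A then 1 else 0)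
    have h3 : ∑ e, (if e ∈ A then (1 : ℝ) else 0) * P e = ∑ e ∈ A, P e := by
      rw [← sum_filter_add_sum_filter_not univ (fun e => e ∈ A)]
      rw [sum_eq_zero (s := univ.filter (fun e => ¬ e ∈ A)), add_zero]
      · rw [filter_mem_eq_inter, univ_inter]
        refine sum_congr rfl fun e he => ?_
        rw [if_pos he, one_mul]
      · intro e he
        rw [if_neg (mem_filter.1 he).2, zero_mul]
    rw [← h3, h]
    refine sum_congr rfl fun M _ => ?_
    rw [← sum_filter, sum_const, nsmul_eq_mul, mul_one, filter_mem_eq_inter]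
  have hR : ∑ M : {M : Finset E // Ind C M}, p M * ((M.1 ∩ T).card : ℝ) = v * T.card := by
    rw [hcard, sum_congr rfl (fun e he => hPv e (by rw [(mem_filter.1 he).2]; exact hwm0)),
      sum_const, nsmul_eq_mul, mul_comm]
  have hL : ∑ M : {M : Finset E // Ind C M}, p M * ∑ e ∈ T, 1 / f e *
        (2 - ((((M.1 ∩ S) ∩ cn C e).card : ℕ) : ℝ)) =
      ∑ e ∈ T, 1 / f e * (2 - v * ((S ∩ cn C e).card : ℝ)) := by
    simp only [mul_sum]
    rw [sum_comm]
    refine sum_congr rfl fun e _ => ?_
    have h3 : ∑ M : {M : Finset E // Ind C M}, p M * ((((M.1 ∩ S) ∩ cn C e).card : ℕ) : ℝ) =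
        v * ((S ∩ cn C e).card : ℝ) := by
      have := hcard (S ∩ cn C e)
      simp only [← inter_assoc] at this
      rw [this, sum_congr rfl (fun e he => hPv e (mem_filter.1 (mem_inter.1 he).1).2),
        sum_const, nsmul_eq_mul, mul_comm]
    rw [← h3]
    calc ∑ M : {M : Finset E // Ind C M}, p M * (1 / f e *
          (2 - ((((M.1 ∩ S) ∩ cn C e).card : ℕ) : ℝ)))
        = ∑ M : {M : Finset E // Ind C M}, (1 / f e * 2 * p M - 1 / f e *
          (p M * ((((M.1 ∩ S) ∩ cn C e).card : ℕ) : ℝ))) :=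
          sum_congr rfl fun M _ => by ring
      _ = 1 / f e * (2 - ∑ M : {M : Finset E // Ind C M},
          p M * ((((M.1 ∩ S) ∩ cn C e).card : ℕ) : ℝ)) := by
          rw [sum_sub_distrib, ← mul_sum, ← mul_sum, hp1]
          ring
  rw [hL, hR] at hex
  have hkey : 2 * ∑ e ∈ T, 1 / f e ≤ v * (2 * γ) * ∑ e ∈ T, 1 / f e := by
    have h1 : ∑ e ∈ T, 1 / f e * (2 - v * (2 * γ - f e)) ≤
        ∑ e ∈ T, 1 / f e * (2 - v * ((S ∩ cn C e).card : ℝ)) := by
      refine sum_le_sum fun e _ => mul_le_mul_of_nonneg_left ?_ (hθ e)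
      have h2 : ((S ∩ cn C e).card : ℝ) ≤ ((cn C e).card : ℝ) := by
        exact_mod_cast card_le_card inter_subset_right
      have h3 := hN e
      have h4 : ((S ∩ cn C e).card : ℝ) ≤ 2 * γ - f e := by linarith
      have h5 := mul_le_mul_of_nonneg_left h4 hv0.le
      linarith
    have h2 : ∑ e ∈ T, 1 / f e * (2 - v * (2 * γ - f e)) =
        (2 - v * (2 * γ)) * ∑ e ∈ T, 1 / f e + v * T.card := by
      rw [mul_sum]
      have : v * (T.card : ℝ) = ∑ e ∈ T, v := by rw [sum_const, nsmul_eq_mul, mul_comm]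
      rw [this, ← sum_add_distrib]
      refine sum_congr rfl fun e _ => ?_
      have := (hf e).ne'
      field_simp
      ring
    linarith
  have hθpos : 0 < ∑ e ∈ T, 1 / f e :=
    sum_pos (fun e _ => one_div_pos.2 (hf e)) ⟨e₀, hTe⟩
  have hvγ : 1 ≤ v * γ := by
    by_contra hcon
    have : v * (2 * γ) < 2 := by linarith [not_le.1 hcon]
    have := mul_lt_mul_of_pos_right this hθpos
    linarith
  refine ⟨fun M => if h : Ind C M then p ⟨M, h⟩ / v else 0, ?_, ?_, ?_, ?_⟩
  · intro M
    show (0 : ℝ) ≤ dite _ _ _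
    split_ifs with h
    · exact div_nonneg (hp0 _) hv0.le
    · exact le_rfl
  · intro M hne
    by_contra hcon
    exact hne (dif_neg hcon)
  · have h1 : ∑ M : Finset E, (if h : Ind C M then p ⟨M, h⟩ / v else 0) =
        ∑ M : {M : Finset E // Ind C M}, p M / v := by
      rw [← sum_filter_add_sum_filter_not univ (fun M => Ind C M)]
      rw [sum_eq_zero (s := univ.filter (fun M => ¬ Ind C M)), add_zero]
      · rw [sum_subtype (univ.filter (fun M => Ind C M)) (p := fun M => Ind C M)
          (fun M => by simp)]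
        refine sum_congr rfl fun M _ => ?_
        rw [dif_pos M.2]
      · intro M hM
        rw [dif_neg (mem_filter.1 hM).2]
    rw [h1, ← sum_div, hp1, div_le_iff₀ hv0]
    linarith
  · intro e
    have h1 : ∑ M ∈ univ.filter (fun M : Finset E => e ∈ M),
        (if h : Ind C M then p ⟨M, h⟩ / v else 0) =
        ∑ M : {M : Finset E // Ind C M}, if e ∈ M.1 then p M / v else 0 := by
      rw [sum_filter, ← sum_filter_add_sum_filter_not univ (fun M => Ind C M)]
      rw [sum_eq_zero (s := univ.filter (fun M => ¬ Ind C M)), add_zero]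
      · rw [sum_subtype (univ.filter (fun M => Ind C M)) (p := fun M => Ind C M)
          (fun M => by simp)]
        refine sum_congr rfl fun M _ => ?_
        rw [dif_pos M.2]
      · intro M hM
        rw [dif_neg (mem_filter.1 hM).2, ite_self]
    rw [h1]
    have h2 : ∑ M : {M : Finset E // Ind C M}, (if e ∈ M.1 then p M / v else 0) = P e / v := by
      simp only [P, sum_div]
      refine sum_congr rfl fun M _ => ?_
      split_ifs
      · rfl
      · rw [zero_div]
    rw [h2, le_div_iff₀ hv0, one_mul]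
    exact hP e

end Pool.Agent.Helper60.SL
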